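import Mathlib

/-! RP module CArc: dyadic arcs of grid points -/

set_option autoImplicit false

open MeasureTheory Filter Topology Finset

namespace Pool.Agent.Helper19.RP

noncomputable section

/-- the indices `i < M` with `i/M ∈ [a/2^u, (a+1)/2^u)` -/
def arc (M u a : ℕ) : Finset ℕ := (range M).filter fun i => i * 2 ^ u / M = a

theorem mem_arc {M u a i : ℕ} : i ∈ arc M u a ↔ i < M ∧ i * 2 ^ u / M = a := by
  simp [arc]

theorem CArc_nat {M u a i : ℕ} (hM : 1 ≤ M) (h : i * 2 ^ u / M = a) :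
    a * M ≤ i * 2 ^ u ∧ i * 2 ^ u < (a + 1) * M := by
  constructor
  · rw [← h]; exact Nat.div_mul_le_self _ _
  · rw [← h]
    have := Nat.lt_div_mul_add (a := i * 2 ^ u) (b := M) hM
    linarith

/-- position of the points of an arc -/
theorem arc_bounds {M u a i : ℕ} (hM : 1 ≤ M) (h : i ∈ arc M u a) :
    (a : ℝ) / 2 ^ u ≤ (i : ℝ) / M ∧ (i : ℝ) / M < ((a : ℝ) + 1) / 2 ^ u := by
  have hM' : (0:ℝ) < M := by exact_mod_cast hM
  obtain ⟨h1, h2⟩ := CArc_nat hM (mem_arc.1 h).2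
  constructor
  · rw [div_le_div_iff₀ (by positivity) hM']
    exact_mod_cast h1
  · rw [div_lt_div_iff₀ hM' (by positivity)]
    exact_mod_cast h2

theorem CArc_div (M u s i : ℕ) : i * 2 ^ (u + s) / M / 2 ^ s = i * 2 ^ u / M := by
  rw [Nat.div_div_eq_div_mul, pow_add, ← mul_assoc]
  exact Nat.mul_div_mul_right _ _ (by positivity)

/-- subdivision of an arc -/
theorem sum_arc_split {β : Type} [AddCommMonoid β] (M u s a : ℕ) (hM : 1 ≤ M) (g : ℕ → β) :
    ∑ i ∈ arc M u a, g i = ∑ j ∈ range (2 ^ s), ∑ i ∈ arc M (u + s) (a * 2 ^ s + j), g i := by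
  have hmaps : ∀ i ∈ arc M u a, (i * 2 ^ (u + s) / M) % 2 ^ s ∈ range (2 ^ s) := by
    intro i _
    rw [mem_range]
    exact Nat.mod_lt _ (by positivity)
  rw [← sum_fiberwise_of_maps_to hmaps]
  refine sum_congr rfl fun j hj => ?_
  rw [mem_range] at hj
  apply sum_congr _ fun _ _ => rfl
  ext i
  rw [mem_filter, mem_arc, mem_arc]
  have h1 := CArc_div M u s i
  have h2 := Nat.div_add_mod (i * 2 ^ (u + s) / M) (2 ^ s)
  constructor
  · rintro ⟨⟨hi, ha⟩, hm⟩
    refine ⟨hi, ?_⟩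
    rw [h1, ha, hm] at h2
    rw [← h2]; ring
  · rintro ⟨hi, ha⟩
    have h3 : i * 2 ^ (u + s) / M / 2 ^ s = a := by
      rw [ha, mul_comm a, Nat.mul_add_div (by positivity), Nat.div_eq_of_lt hj, add_zero]
    refine ⟨⟨hi, by rw [← h1, h3]⟩, ?_⟩
    rw [ha, mul_comm a, Nat.mul_add_mod, Nat.mod_eq_of_lt hj]

theorem sum_arc_zero {β : Type} [AddCommMonoid β] (M : ℕ) (hM : 1 ≤ M) (g : ℕ → β) :
    ∑ i ∈ arc M 0 0, g i = ∑ i ∈ range M, g i := by
  apply sum_congr _ fun _ _ => rfl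
  ext i
  rw [mem_arc, mem_range]
  constructor
  · exact fun h => h.1
  · intro h
    refine ⟨h, ?_⟩
    rw [pow_zero, mul_one]
    exact Nat.div_eq_of_lt h

theorem sum_arc_all {β : Type} [AddCommMonoid β] (M u : ℕ) (hM : 1 ≤ M) (g : ℕ → β) :
    ∑ a ∈ range (2 ^ u), ∑ i ∈ arc M u a, g i = ∑ i ∈ range M, g i := by
  have hmaps : ∀ i ∈ range M, i * 2 ^ u / M ∈ range (2 ^ u) := by
    intro i hi
    rw [mem_range] at hi ⊢
    rw [Nat.div_lt_iff_lt_mul (by omega), mul_comm (2 ^ u)]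
    exact Nat.mul_lt_mul_of_pos_right hi (by positivity)
  rw [← sum_fiberwise_of_maps_to hmaps]
  rfl

theorem card_arc_le (M u a : ℕ) (hM : 1 ≤ M) (h : 2 ^ u ≤ M) :
    ((arc M u a).card : ℝ) ≤ 2 * M / 2 ^ u := by
  have hp : 0 < 2 ^ u := by positivity
  -- the arc is contained in `[x, x + w]` with `w = M / 2^u`
  rcases (arc M u a).eq_empty_or_nonempty with he | hne
  · rw [he, card_empty, Nat.cast_zero]; positivity
  · set x := (arc M u a).min' hne with hx
    have hxm : x ∈ arc M u a := min'_mem _ _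
    have hsub : arc M u a ⊆ Icc x (x + M / 2 ^ u) := by
      intro i hi
      rw [mem_Icc]
      refine ⟨min'_le _ _ hi, ?_⟩
      obtain ⟨_, h2⟩ := CArc_nat hM (mem_arc.1 hi).2
      obtain ⟨h3, _⟩ := CArc_nat hM (mem_arc.1 hxm).2
      have hxi : x ≤ i := min'_le _ _ hi
      have h4 : (i - x) * 2 ^ u < M := by
        rw [Nat.sub_mul]
        have : (a + 1) * M = a * M + M := by ring
        omega
      have h5 : i - x ≤ M / 2 ^ u := (Nat.le_div_iff_mul_le hp).2 h4.le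
      omega
    have hcard := card_le_card hsub
    rw [Nat.card_Icc] at hcard
    have h6 : (((x + M / 2 ^ u + 1 - x : ℕ)) : ℝ) ≤ 2 * M / 2 ^ u := by
      have e : x + M / 2 ^ u + 1 - x = M / 2 ^ u + 1 := by
        rw [add_assoc, Nat.add_sub_cancel_left]
      rw [e]
      push_cast
      have h7 : ((M / 2 ^ u : ℕ) : ℝ) ≤ (M : ℝ) / ((2 ^ u : ℕ) : ℝ) := Nat.cast_div_le
      push_cast at h7
      have h8 : (1:ℝ) ≤ (M : ℝ) / 2 ^ u := by
        rw [le_div_iff₀ (by positivity), one_mul]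
        exact_mod_cast h
      have h9 : 2 * (M:ℝ) / 2 ^ u = (M:ℝ) / 2 ^ u + (M:ℝ) / 2 ^ u := by ring
      rw [h9]
      linarith
    refine le_trans ?_ h6
    exact_mod_cast hcard

end

end Pool.Agent.Helper19.RP
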