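import Pool.Agent.Helper19.RP.Iface

/-! RP module CB: elementary facts on characters, scalar products and trigonometric sums -/

set_option autoImplicit false

open MeasureTheory Filter Topology Finset

namespace Pool.Agent.Helper19.RP

noncomputable section

theorem ch_add (x y : ℝ) : ch (x + y) = ch x * ch y := by
  unfold ch
  rw [← Complex.exp_add]
  congr 1
  push_cast
  ring

theorem ch_zero : ch 0 = 1 := by
  simp [ch]

theorem norm_ch (x : ℝ) : ‖ch x‖ = 1 := by
  unfold ch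
  rw [Complex.norm_exp]
  simp

theorem ch_neg (x : ℝ) : ch (-x) = (starRingEnd ℂ) (ch x) := by
  unfold ch
  rw [← Complex.exp_conj]
  congr 1
  simp only [map_mul, Complex.conj_I, Complex.conj_ofReal, map_ofNat]
  push_cast
  ring

theorem ch_mul_ch_neg (x : ℝ) : ch x * ch (-x) = 1 := by
  rw [← ch_add]
  simp [ch_zero]

theorem continuous_ch : Continuous ch := by
  unfold ch
  fun_prop

theorem ch_int (m : ℤ) : ch m = 1 := by
  unfold ch
  have : (2 * (Real.pi : ℂ) * ((m : ℝ) : ℂ) * Complex.I) = m * (2 * Real.pi * Complex.I) := by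
    push_cast
    ring
  rw [this]
  exact Complex.exp_int_mul_two_pi_mul_I m

theorem ch_nsmul (m : ℕ) (x : ℝ) : ch (m * x) = ch x ^ m := by
  induction m with
  | zero => simp [ch_zero]
  | succ m ih =>
    rw [pow_succ, ← ih, ← ch_add]
    congr 1
    push_cast
    ring

theorem dt_add_left {k : ℕ} (x y z : E k) : dt (x + y) z = dt x z + dt y z := by
  simp [dt, add_mul, Finset.sum_add_distrib]

theorem dt_add_right {k : ℕ} (x y z : E k) : dt x (y + z) = dt x y + dt x z := by
  simp [dt, mul_add, Finset.sum_add_distrib]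

theorem dt_smul_right {k : ℕ} (x y : E k) (c : ℝ) : dt x (c • y) = c * dt x y := by
  simp only [dt, Pi.smul_apply, smul_eq_mul, Finset.mul_sum]
  exact Finset.sum_congr rfl fun i _ => by ring

theorem dt_neg_right {k : ℕ} (x y : E k) : dt x (-y) = -dt x y := by
  simp [dt, Finset.sum_neg_distrib]

theorem dt_sub_right {k : ℕ} (x y z : E k) : dt x (y - z) = dt x y - dt x z := by
  rw [sub_eq_add_neg, dt_add_right, dt_neg_right]
  ring

theorem dt_zero_right {k : ℕ} (x : E k) : dt x 0 = 0 := by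
  simp [dt]

theorem continuous_dt_left {k : ℕ} (z : E k) : Continuous fun x : E k => dt x z := by
  unfold dt
  fun_prop

theorem continuous_ch_dt {k : ℕ} (z : E k) : Continuous fun x : E k => ch (dt x z) :=
  continuous_ch.comp (continuous_dt_left z)

theorem TS.mono {n : ℕ} {S T : Set (E n)} {f : E n → ℂ} (h : TS S f) (hST : S ⊆ T) : TS T f := by
  obtain ⟨s, c, hs, hf⟩ := h
  exact ⟨s, c, hs.trans hST, hf⟩

theorem TS.congr {n : ℕ} {S : Set (E n)} {f g : E n → ℂ} (h : TS S f) (hfg : ∀ x, g x = f x) :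
    TS S g := by
  obtain ⟨s, c, hs, hf⟩ := h
  exact ⟨s, c, hs, fun x => by rw [hfg, hf]⟩

theorem TS.zero {n : ℕ} (S : Set (E n)) : TS S (fun _ => 0) :=
  ⟨∅, fun _ => 0, by simp, fun x => by simp⟩

theorem TS.single {n : ℕ} {S : Set (E n)} (ζ : E n) (hζ : ζ ∈ S) (c : ℂ) :
    TS S (fun x => c * ch (dt x ζ)) :=
  ⟨{ζ}, fun _ => c, by simpa using hζ, fun x => by simp⟩

theorem TS.add {n : ℕ} {S : Set (E n)} {f g : E n → ℂ} (hf : TS S f) (hg : TS S g) :
    TS S (fun x => f x + g x) := by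
  classical
  obtain ⟨s, c, hs, hf⟩ := hf
  obtain ⟨s', c', hs', hg⟩ := hg
  refine ⟨s ∪ s', fun ζ => (if ζ ∈ s then c ζ else 0) + (if ζ ∈ s' then c' ζ else 0), ?_, ?_⟩
  · intro ζ hζ
    simp only [Finset.coe_union, Set.mem_union, Finset.mem_coe] at hζ
    rcases hζ with h | h
    · exact hs h
    · exact hs' h
  · intro x
    show f x + g x = _
    rw [hf, hg]
    simp only [add_mul, Finset.sum_add_distrib, ite_mul, zero_mul]
    congr 1
    · rw [← Finset.sum_filter]
      congr 1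
      ext ζ
      simp only [Finset.mem_filter, Finset.mem_union]
      tauto
    · rw [← Finset.sum_filter]
      congr 1
      ext ζ
      simp only [Finset.mem_filter, Finset.mem_union]
      tauto

theorem TS.sum {n : ℕ} {ι : Type} (s : Finset ι) {S : Set (E n)} {f : ι → E n → ℂ}
    (h : ∀ i ∈ s, TS S (f i)) : TS S (fun x => ∑ i ∈ s, f i x) := by
  classical
  induction s using Finset.induction_on with
  | empty => simpa using TS.zero S
  | insert a s ha ih =>
    have h1 : TS S (f a) := h a (Finset.mem_insert_self a s)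
    have h2 := ih fun i hi => h i (Finset.mem_insert_of_mem hi)
    exact (h1.add h2).congr fun x => by rw [Finset.sum_insert ha]

theorem TS.const_mul {n : ℕ} {S : Set (E n)} {f : E n → ℂ} (c : ℂ) (hf : TS S f) :
    TS S (fun x => c * f x) := by
  obtain ⟨s, d, hs, hf⟩ := hf
  exact ⟨s, fun ζ => c * d ζ, hs, fun x => by
    show c * f x = _
    rw [hf, Finset.mul_sum]
    exact Finset.sum_congr rfl fun ζ _ => by ring⟩

theorem TS.continuous {n : ℕ} {S : Set (E n)} {f : E n → ℂ} (hf : TS S f) : Continuous f := by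
  obtain ⟨s, d, hs, hf⟩ := hf
  have : f = fun x => ∑ ζ ∈ s, d ζ * ch (dt x ζ) := funext hf
  rw [this]
  exact continuous_finsetSum _ fun ζ _ => continuous_const.mul (continuous_ch_dt ζ)

theorem TS.bounded {n : ℕ} {S : Set (E n)} {f : E n → ℂ} (hf : TS S f) :
    ∃ B : ℝ, 0 ≤ B ∧ ∀ x, ‖f x‖ ≤ B := by
  obtain ⟨s, d, hs, hf⟩ := hf
  refine ⟨∑ ζ ∈ s, ‖d ζ‖, Finset.sum_nonneg fun _ _ => norm_nonneg _, fun x => ?_⟩
  rw [hf]
  refine (norm_sum_le _ _).trans (Finset.sum_le_sum fun ζ _ => ?_)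
  rw [norm_mul, norm_ch, mul_one]

/-- powers of norms of bounded continuous functions are integrable -/
theorem integrable_norm_pow {n : ℕ} {μ : Measure (E n)} [IsFiniteMeasure μ] {f : E n → ℂ}
    (hc : Continuous f) (hb : ∃ B : ℝ, ∀ x, ‖f x‖ ≤ B) (p : ℕ) :
    Integrable (fun x => ‖f x‖ ^ p) μ := by
  obtain ⟨B, hB⟩ := hb
  refine Integrable.of_bound (C := B ^ p) (hc.norm.pow p).aestronglyMeasurable ?_
  refine Filter.Eventually.of_forall fun x => ?_
  rw [Real.norm_of_nonneg (by positivity)]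
  exact pow_le_pow_left₀ (norm_nonneg _) (hB x) p

theorem TS.integrable_pow {n : ℕ} {S : Set (E n)} {f : E n → ℂ} (hf : TS S f)
    {μ : Measure (E n)} [IsFiniteMeasure μ] (p : ℕ) : Integrable (fun x => ‖f x‖ ^ p) μ := by
  obtain ⟨B, _, hB⟩ := hf.bounded
  exact integrable_norm_pow hf.continuous ⟨B, hB⟩ p

/-- products of trigonometric sums -/
theorem TS.mul {n : ℕ} {S T U : Set (E n)} {f g : E n → ℂ} (hf : TS S f) (hg : TS T g)
    (hU : ∀ ζ ∈ S, ∀ ζ' ∈ T, ζ + ζ' ∈ U) : TS U (fun x => f x * g x) := by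
  obtain ⟨s, c, hs, hf⟩ := hf
  obtain ⟨s', c', hs', hg⟩ := hg
  have : TS U fun x => ∑ q ∈ s ×ˢ s', (c q.1 * c' q.2) * ch (dt x (q.1 + q.2)) :=
    TS.sum _ fun q hq => by
      rw [Finset.mem_product] at hq
      exact TS.single (q.1 + q.2) (hU _ (hs hq.1) _ (hs' hq.2)) _
  refine this.congr fun x => ?_
  rw [hf, hg, Finset.sum_mul_sum, Finset.sum_product]
  refine Finset.sum_congr rfl fun ζ _ => Finset.sum_congr rfl fun ζ' _ => ?_
  rw [dt_add_right, ch_add]
  ring

theorem TS.conj {n : ℕ} {S T : Set (E n)} {f : E n → ℂ} (hf : TS S f)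
    (hT : ∀ ζ ∈ S, -ζ ∈ T) : TS T (fun x => (starRingEnd ℂ) (f x)) := by
  obtain ⟨s, c, hs, hf⟩ := hf
  have : TS T fun x => ∑ q ∈ s, (starRingEnd ℂ) (c q) * ch (dt x (-q)) :=
    TS.sum _ fun q hq => TS.single (-q) (hT _ (hs hq)) _
  refine this.congr fun x => ?_
  rw [hf, map_sum]
  refine Finset.sum_congr rfl fun ζ _ => ?_
  rw [map_mul, dt_neg_right, ch_neg]

end

end Pool.Agent.Helper19.RP
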