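import Pool.Agent.Helper19.RP.CB
import Pool.Agent.Helper28.FST.Trig

/-! RP module CFej: hat functions as frequency multipliers -/

set_option autoImplicit false

open MeasureTheory Filter Topology Finset

namespace Pool.Agent.Helper19.RP

noncomputable section

/-- hat function with peak `b * H` and half width `H` -/
def hat (H b m : ℕ) : ℝ := max 0 (1 - |(m : ℝ) - b * H| / H)

theorem hat_nonneg (H b m : ℕ) : 0 ≤ hat H b m := le_max_left _ _

theorem hat_le_one (H b m : ℕ) : hat H b m ≤ 1 := by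
  unfold hat
  apply max_le (by norm_num)
  have : 0 ≤ |(m : ℝ) - b * H| / H := by positivity
  linarith

theorem hat_support (H : ℕ) (hH : 1 ≤ H) (b m : ℕ) (h : hat H b m ≠ 0) :
    |(m : ℝ) - b * H| < H := by
  have hH' : (0:ℝ) < H := by exact_mod_cast hH
  by_contra hcon
  push Not at hcon
  apply h
  unfold hat
  rw [max_eq_left]
  have : 1 ≤ |(m : ℝ) - b * H| / H := by
    rw [le_div_iff₀ hH']; linarith
  linarith

/-- partition of unity -/
theorem hat_sum (H : ℕ) (hH : 1 ≤ H) (B m : ℕ) (hm : m ≤ B * H) :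
    ∑ b ∈ range (B + 1), hat H b m = 1 := by
  have hH' : (0:ℝ) < H := by exact_mod_cast hH
  set b0 := m / H with hb0
  have h1 : b0 * H + m % H = m := by rw [hb0, mul_comm]; exact Nat.div_add_mod m H
  have h2 : m % H < H := Nat.mod_lt _ hH
  have hb0B : b0 ≤ B := by
    rw [hb0]
    exact Nat.div_le_of_le_mul (by rw [mul_comm]; exact hm)
  have h1r : (b0 : ℝ) * H + ((m % H : ℕ) : ℝ) = m := by exact_mod_cast h1
  have h2r : ((m % H : ℕ) : ℝ) < H := by exact_mod_cast h2
  have h3r : (0:ℝ) ≤ ((m % H : ℕ) : ℝ) := Nat.cast_nonneg _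
  have hzero : ∀ b : ℕ, b ≠ b0 → b ≠ b0 + 1 → hat H b m = 0 := by
    intro b hb1 hb2
    by_contra hne
    have h4 := hat_support H hH b m hne
    rw [abs_lt] at h4
    rcases lt_or_gt_of_ne hb1 with h5 | h5
    · have h6 : (b : ℝ) + 1 ≤ b0 := by exact_mod_cast h5
      nlinarith
    · have h6 : (b0 : ℝ) + 2 ≤ b := by
        have : b0 + 2 ≤ b := by omega
        exact_mod_cast this
      nlinarith
  have hv0 : hat H b0 m = 1 - ((m % H : ℕ) : ℝ) / H := by
    unfold hat
    have e : (m : ℝ) - b0 * H = ((m % H : ℕ) : ℝ) := by linarith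
    rw [e, abs_of_nonneg h3r, max_eq_right]
    have : ((m % H : ℕ) : ℝ) / H ≤ 1 := by rw [div_le_one hH']; exact h2r.le
    linarith
  have hv1 : hat H (b0 + 1) m = ((m % H : ℕ) : ℝ) / H := by
    unfold hat
    have e : (m : ℝ) - ((b0 + 1 : ℕ) : ℝ) * H = ((m % H : ℕ) : ℝ) - H := by push_cast; linarith
    rw [e, abs_of_nonpos (by linarith), max_eq_right]
    · field_simp; ring
    · have : -(((m % H : ℕ) : ℝ) - H) / H ≤ 1 := by
        rw [div_le_one hH']; linarith
      linarith
  by_cases hlt : b0 < B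
  · rw [← sum_subset (s₁ := ({b0, b0 + 1} : Finset ℕ))]
    · rw [sum_pair (by omega), hv0, hv1]; ring
    · intro b hb
      simp only [mem_insert, mem_singleton] at hb
      rw [mem_range]; omega
    · intro b _ hb
      simp only [mem_insert, mem_singleton, not_or] at hb
      exact hzero b hb.1 hb.2
  · have hBeq : b0 = B := le_antisymm hb0B (not_lt.1 hlt)
    have hmod : m % H = 0 := by
      rw [hBeq] at h1
      omega
    rw [sum_eq_single_of_mem b0 (by rw [mem_range]; omega)]
    · rw [hv0, hmod]; simp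
    · intro b hb hne
      rw [mem_range] at hb
      exact hzero b hne (by omega)

/-- the multiplier does not increase the supremum norm (positivity of the Fejer kernel) -/
theorem hat_sup (H : ℕ) (hH : 1 ≤ H) (b : ℕ) (S : Finset ℕ) (c : ℕ → ℂ)
    (h : ∀ y : ℝ, ‖∑ m ∈ S, c m * ch (m * y)‖ ≤ 1) :
    ∀ y : ℝ, ‖∑ m ∈ S, (hat H b m : ℂ) * c m * ch (m * y)‖ ≤ 1 := by
  intro y
  have hinj : Set.InjOn (fun m : ℕ => (m : ℤ)) (S : Set ℕ) := fun a _ b _ h =>
    Nat.cast_injective (R := ℤ) h
  have e : ∀ (f : ℤ → ℂ), ∑ m ∈ S.image (fun m : ℕ => (m : ℤ)), f m = ∑ m ∈ S, f (m : ℤ) := by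
    intro f
    rw [sum_image hinj]
  have h1 := Pool.Agent.Helper28.FST.hat_bound (S.image (fun m : ℕ => (m : ℤ)))
    (fun m => c m.toNat) ((b : ℤ) * H) H hH 1 (by
      intro y
      rw [e]
      simpa using h y) y
  rw [e] at h1
  refine le_trans (le_of_eq ?_) h1
  congr 1
  refine sum_congr rfl fun m _ => ?_
  have e2 : Pool.Agent.Helper28.FST.hat ((b : ℤ) * H) H (m : ℤ) = hat H b m := by
    unfold Pool.Agent.Helper28.FST.hat hat
    push_cast
    rfl
  rw [e2]
  simp only [Int.toNat_natCast, Int.cast_natCast]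
  ring

end

end Pool.Agent.Helper19.RP
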