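import Pool.Agent.Helper19.RP.CChain
import Pool.Agent.Helper19.RP.CFej

/-! RP module CBand: estimate of one frequency band -/

set_option autoImplicit false

open MeasureTheory Filter Topology Finset

namespace Pool.Agent.Helper19.RP

noncomputable section

/-- the powers of two against the powers of `R` -/
theorem cband_pow (d L : ℕ) (c R lam : ℝ) (hc : 0 < c) (hR : 1 ≤ R) (hlam : 0 < lam)
    (h1 : (2 : ℝ) ^ L ≤ R) (h2 : R ≤ 4 / c * 2 ^ L) :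
    (2 : ℝ) ^ ((-(d : ℝ) + lam) * L) ≤ (4 / c) ^ d * R ^ (-(d : ℝ) + lam) := by
  have hR0 : 0 < R := by linarith
  have e1 : (2 : ℝ) ^ ((-(d : ℝ) + lam) * L) = ((2 : ℝ) ^ L) ^ (-(d : ℝ)) * ((2 : ℝ) ^ L) ^ lam := by
    rw [← Real.rpow_add (by positivity), ← Real.rpow_natCast 2 L, ← Real.rpow_mul two_pos.le]
    congr 1
    ring
  have e2 : ((2 : ℝ) ^ L) ^ (-(d : ℝ)) ≤ (4 / c) ^ d * R ^ (-(d : ℝ)) := by
    rw [Real.rpow_neg (by positivity), Real.rpow_neg hR0.le, Real.rpow_natCast, Real.rpow_natCast]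
    have h3 : R ^ d ≤ (4 / c * 2 ^ L) ^ d := pow_le_pow_left₀ hR0.le h2 d
    rw [mul_pow] at h3
    rw [← div_eq_mul_inv, inv_eq_one_div, div_le_div_iff₀ (by positivity) (by positivity)]
    linarith
  have e3 : ((2 : ℝ) ^ L) ^ lam ≤ R ^ lam := Real.rpow_le_rpow (by positivity) h1 hlam.le
  rw [e1, Real.rpow_add hR0, ← mul_assoc]
  gcongr

/-- one band -/
theorem band_bound (n : ℕ) (hn : 2 ≤ n) (hMC : ∀ k, 1 ≤ k → k ≤ n - 1 → MC k) (lam : ℝ)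
    (hlam : 0 < lam) : ∃ p0 : ℕ, ∀ p ≥ p0, Even p → ∃ c C : ℝ, 0 < c ∧ c ≤ 1 ∧ 1 ≤ C ∧
      ∀ (R M H b L s0 : ℕ), 1 ≤ R → R ≤ M → 1 ≤ s0 → 1 ≤ H →
        (2 : ℝ) ^ L ≤ c * R → R ≤ 4 / c * 2 ^ L → (H : ℝ) ≤ c * (1 / 2) ^ ((n - 1) * s0) * R →
        ∀ cf : ℕ → ℕ → ℂ,
        (∀ i < M, ∀ y : ℝ, ‖∑ m ∈ Icc R (4 * R), cf i m * ch (m * y)‖ ≤ 1) →
        ∫ a, ‖∑ i ∈ range M, ∑ m ∈ Icc R (4 * R),
            (hat H b m : ℂ) * cf i m * ch (m * pol a ((i : ℝ) / M))‖ ^ p ∂(mu0 n) ≤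
          C ^ (L / s0 + 1) * (R : ℝ) ^ (-((n : ℝ) - 1) + lam) * (M : ℝ) ^ (p - 1) *
            ∑ i ∈ range M, ∑ m ∈ Icc R (4 * R), ‖cf i m‖ ^ 2 := by
  obtain ⟨p0, hp0⟩ := cone_chain n hn hMC lam hlam
  refine ⟨max p0 2, fun p hp hpe => ?_⟩
  have hp2 : 2 ≤ p := (le_max_right _ _).trans hp
  obtain ⟨c0, C0, hc0, hC0, hchain⟩ := hp0 p ((le_max_left _ _).trans hp) hpe
  have hmu : 0 ≤ (mu0 n).real Set.univ := measureReal_nonneg
  obtain ⟨c, hc, hc1, hc2, hcc0⟩ : ∃ c : ℝ, 0 < c ∧ c ≤ 1 ∧ c ≤ 1 / 2 ∧ 2 * c ≤ c0 := by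
    refine ⟨min (c0 / 2) (1 / 2), by positivity, ?_, min_le_right _ _, ?_⟩
    · exact (min_le_right _ _).trans (by norm_num)
    · have := min_le_left (c0 / 2) (1 / 2)
      linarith
  obtain ⟨Aa, hAa⟩ : ∃ Aa : ℝ, Aa = 2 ^ (p - 1) * (4 / c) ^ (n - 1) * (mu0 n).real Set.univ :=
    ⟨_, rfl⟩
  have hAa0 : 0 ≤ Aa := by rw [hAa]; positivity
  refine ⟨c, C0 * (Aa + 1), hc, hc1, by nlinarith, ?_⟩
  intro R M H b L s0 hR hRM hs0 hH hL1 hL2 hHx cf hcf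
  have hM : 1 ≤ M := hR.trans hRM
  have hRr : (1 : ℝ) ≤ R := by exact_mod_cast hR
  have hMr : (0 : ℝ) < M := by exact_mod_cast hM
  have hHr : (1 : ℝ) ≤ H := by exact_mod_cast hH
  have hnd : (n : ℝ) - 1 = ((n - 1 : ℕ) : ℝ) := by
    rw [Nat.cast_sub (by omega)]
    simp
  set Sm : ℝ := ∑ i ∈ range M, ∑ m ∈ Icc R (4 * R), ‖cf i m‖ ^ 2 with hSm
  have hSm0 : 0 ≤ Sm := sum_nonneg fun i _ => sum_nonneg fun m _ => by positivity
  set g : ℕ → E n → ℂ := fun i a => ∑ m ∈ Icc R (4 * R),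
    (hat H b m : ℂ) * cf i m * ch (m * pol a ((i : ℝ) / M)) with hg
  by_cases hzero : ∀ m ∈ Icc R (4 * R), hat H b m = 0
  · have h1 : ∀ a : E n, ∑ i ∈ range M, ∑ m ∈ Icc R (4 * R),
        (hat H b m : ℂ) * cf i m * ch (m * pol a ((i : ℝ) / M)) = 0 := by
      intro a
      refine sum_eq_zero fun i _ => sum_eq_zero fun m hm => ?_
      rw [hzero m hm]
      simp
    simp only [h1, norm_zero]
    rw [zero_pow (by omega)]
    simp only [integral_zero]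
    have : 0 ≤ C0 * (Aa + 1) := by positivity
    positivity
  · push Not at hzero
    obtain ⟨m0, hm0, hm0'⟩ := hzero
    rw [mem_Icc] at hm0
    have hsup := hat_support H hH b m0 hm0'
    have hm0r : (R : ℝ) ≤ m0 := by exact_mod_cast hm0.1
    have hhalf : (0 : ℝ) < (1 / 2) ^ ((n - 1) * s0) := by positivity
    have hhalf1 : ((1 : ℝ) / 2) ^ ((n - 1) * s0) ≤ 1 := pow_le_one₀ (by norm_num) (by norm_num)
    have hHR : (H : ℝ) ≤ R / 2 := by
      refine hHx.trans ?_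
      calc c * (1 / 2) ^ ((n - 1) * s0) * R ≤ (1 / 2) * 1 * R := by gcongr
        _ = R / 2 := by ring
    obtain ⟨κ, hκ⟩ : ∃ κ : ℝ, κ = (b : ℝ) * H := ⟨_, rfl⟩
    rw [← hκ] at hsup
    have hκR : (R : ℝ) / 2 ≤ κ := by
      have := (abs_lt.1 hsup).2
      linarith
    have hκ0 : 0 < κ := by linarith
    have hnuκ : (H : ℝ) / κ * κ = H := by field_simp
    have hnu : (H : ℝ) / κ ≤ c0 * (1 / 2) ^ ((n - 1) * s0) := by
      rw [div_le_iff₀ hκ0]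
      calc (H : ℝ) ≤ c * (1 / 2) ^ ((n - 1) * s0) * R := hHx
        _ ≤ c * (1 / 2) ^ ((n - 1) * s0) * (2 * κ) := by
            have : (R : ℝ) ≤ 2 * κ := by linarith
            gcongr
        _ = (2 * c) * (1 / 2) ^ ((n - 1) * s0) * κ := by ring
        _ ≤ c0 * (1 / 2) ^ ((n - 1) * s0) * κ := by gcongr
    have hLκ : (2 : ℝ) ^ L ≤ c0 * κ := by
      refine hL1.trans ?_
      calc c * R ≤ c * (2 * κ) := by
            have : (R : ℝ) ≤ 2 * κ := by linarith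
            gcongr
        _ = (2 * c) * κ := by ring
        _ ≤ c0 * κ := by gcongr
    have hL2R : (2 : ℝ) ^ L ≤ R := by
      refine hL1.trans ?_
      nlinarith
    have hLM : 2 ^ L ≤ M := by
      have : ((2 ^ L : ℕ) : ℝ) ≤ R := by
        push_cast
        exact hL2R
      have h2 : 2 ^ L ≤ R := by exact_mod_cast this
      exact h2.trans hRM
    have hterm : ∀ (i m : ℕ), TS {ζ : E n | ∃ x : ℝ, |x - κ| ≤ (H : ℝ) / κ * κ ∧
        ζ = x • gam n ((i : ℝ) / M)}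
        (fun a => (hat H b m : ℂ) * cf i m * ch (m * pol a ((i : ℝ) / M))) := by
      intro i m
      by_cases hm : hat H b m = 0
      · refine (TS.zero _).congr fun a => ?_
        rw [hm]
        simp
      · have hmem : ((m : ℝ) • gam n ((i : ℝ) / M)) ∈ {ζ : E n | ∃ x : ℝ,
            |x - κ| ≤ (H : ℝ) / κ * κ ∧ ζ = x • gam n ((i : ℝ) / M)} := by
          refine ⟨(m : ℝ), ?_, rfl⟩
          rw [hnuκ, hκ]
          exact (hat_support H hH b m hm).le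
        refine (TS.single ((m : ℝ) • gam n ((i : ℝ) / M)) hmem
          ((hat H b m : ℂ) * cf i m)).congr fun a => ?_
        rw [ch_pol]
    have hcone : Cone n M κ ((H : ℝ) / κ) g := fun i _ => TS.sum _ fun m _ => hterm i m
    have h1 := hchain M L s0 κ ((H : ℝ) / κ) hM hs0 hκ0 hLκ (by positivity) hnu g hcone
    rw [Sg_zero n p M hM g] at h1
    have h2 := Sg_le n p M L hM (by omega) hLM g
      (fun i hi => (hcone i hi).mono (Set.subset_univ _))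
    have h3 : ∀ i ∈ range M, ∫ x, ‖g i x‖ ^ p ∂(mu0 n) ≤
        (mu0 n).real Set.univ * ∑ m ∈ Icc R (4 * R), ‖cf i m‖ ^ 2 := by
      intro i hi
      rw [mem_range] at hi
      have h4 := integral_pow_mu0_le n (by omega) p hp2 (Icc R (4 * R))
        (fun m => (hat H b m : ℂ) * cf i m) ((i : ℝ) / M)
        (hat_sup H hH b (Icc R (4 * R)) (cf i) (hcf i hi))
      refine h4.trans ?_
      refine mul_le_mul_of_nonneg_left (sum_le_sum fun m _ => ?_) hmu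
      rw [norm_mul, Complex.norm_real, Real.norm_of_nonneg (hat_nonneg H b m)]
      refine pow_le_pow_left₀ (by have := hat_nonneg H b m; positivity) ?_ 2
      exact mul_le_of_le_one_left (norm_nonneg _) (hat_le_one H b m)
    have h5 : ∑ i ∈ range M, ∫ x, ‖g i x‖ ^ p ∂(mu0 n) ≤ (mu0 n).real Set.univ * Sm := by
      refine (sum_le_sum h3).trans ?_
      rw [← mul_sum]
    have h6 : Sg n p M L g ≤ (2 * M / 2 ^ L) ^ (p - 1) * ((mu0 n).real Set.univ * Sm) :=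
      h2.trans (mul_le_mul_of_nonneg_left h5 (by positivity))
    have h7 : (0 : ℝ) ≤ C0 ^ (L / s0 + 1) *
        (2 : ℝ) ^ (((p : ℝ) - 1 - ((n : ℝ) - 1) + lam) * L) := by positivity
    have h8 := h1.trans (mul_le_mul_of_nonneg_left h6 h7)
    have h9 : (2 : ℝ) ^ (((p : ℝ) - 1 - ((n : ℝ) - 1) + lam) * L) *
        (2 * M / 2 ^ L) ^ (p - 1) =
        2 ^ (p - 1) * (M : ℝ) ^ (p - 1) * (2 : ℝ) ^ ((-((n - 1 : ℕ) : ℝ) + lam) * L) := by
      have e1 : (2 : ℝ) ^ (((p : ℝ) - 1 - ((n : ℝ) - 1) + lam) * L) =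
          (2 : ℝ) ^ ((-((n - 1 : ℕ) : ℝ) + lam) * L) * ((2 : ℝ) ^ L) ^ (p - 1) := by
        rw [← pow_mul, ← Real.rpow_natCast 2 (L * (p - 1)), ← Real.rpow_add two_pos, hnd]
        congr 1
        push_cast [Nat.cast_sub (show 1 ≤ p by omega)]
        ring
      rw [e1, div_pow, mul_pow]
      have : (0 : ℝ) < ((2 : ℝ) ^ L) ^ (p - 1) := by positivity
      field_simp
    have h10 := cband_pow (n - 1) L c R lam hc hRr hlam hL2R hL2
    have h11 : C0 ^ (L / s0 + 1) * Aa ≤ (C0 * (Aa + 1)) ^ (L / s0 + 1) := by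
      rw [mul_pow]
      refine mul_le_mul_of_nonneg_left ?_ (by positivity)
      calc Aa ≤ (Aa + 1) ^ 1 := by linarith
        _ ≤ (Aa + 1) ^ (L / s0 + 1) := pow_le_pow_right₀ (by linarith) (Nat.le_add_left 1 _)
    rw [hnd]
    calc _ ≤ _ := h8
      _ = C0 ^ (L / s0 + 1) * ((2 : ℝ) ^ (((p : ℝ) - 1 - ((n : ℝ) - 1) + lam) * L) *
          (2 * M / 2 ^ L) ^ (p - 1)) * ((mu0 n).real Set.univ * Sm) := by ring
      _ = C0 ^ (L / s0 + 1) * (2 ^ (p - 1) * (M : ℝ) ^ (p - 1) *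
          (2 : ℝ) ^ ((-((n - 1 : ℕ) : ℝ) + lam) * L)) * ((mu0 n).real Set.univ * Sm) := by
          rw [h9]
      _ ≤ C0 ^ (L / s0 + 1) * (2 ^ (p - 1) * (M : ℝ) ^ (p - 1) *
          ((4 / c) ^ (n - 1) * (R : ℝ) ^ (-((n - 1 : ℕ) : ℝ) + lam))) *
          ((mu0 n).real Set.univ * Sm) := by gcongr
      _ = (C0 ^ (L / s0 + 1) * Aa) * ((R : ℝ) ^ (-((n - 1 : ℕ) : ℝ) + lam) *
          (M : ℝ) ^ (p - 1) * Sm) := by rw [hAa]; ring
      _ ≤ (C0 * (Aa + 1)) ^ (L / s0 + 1) * ((R : ℝ) ^ (-((n - 1 : ℕ) : ℝ) + lam) *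
          (M : ℝ) ^ (p - 1) * Sm) := by gcongr
      _ = _ := by ring

end

end Pool.Agent.Helper19.RP
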