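import Pool.Agent.Helper19.RP.CStage

/-! RP module CChainA: all stages, abstract form -/

set_option autoImplicit false

open MeasureTheory Filter Topology Finset

namespace Pool.Agent.Helper19.RP

noncomputable section

/-- end points of the stages -/
def chainX (d L m : ℕ) : ℕ := if m = 0 then 0 else L / (d + 1 - m)

theorem chainX_zero (d L : ℕ) : chainX d L 0 = 0 := by simp [chainX]

theorem chainX_succ (d L m : ℕ) : chainX d L (m + 1) = L / (d - m) := by
  simp [chainX]

theorem chainX_le (d L m : ℕ) : chainX d L m ≤ L := by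
  unfold chainX
  split_ifs
  · exact Nat.zero_le _
  · exact Nat.div_le_self _ _

theorem chainX_mono (d L m : ℕ) (hm : m < d) : chainX d L m ≤ chainX d L (m + 1) := by
  rw [chainX_succ]
  unfold chainX
  split_ifs
  · exact Nat.zero_le _
  · exact Nat.div_le_div_left (by omega) (by omega)

/-- the weighted sum of the lengths of the stages -/
theorem chainX_sum (d L m : ℕ) (hm : m ≤ d) :
    ((d - m : ℕ) : ℝ) * ((d - m : ℕ) + 1) / 2 * chainX d L m + m * ((L : ℝ) - d) ≤
      ∑ i ∈ range m, ((d - i : ℕ) : ℝ) * ((d - i : ℕ) + 1) / 2 *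
        ((chainX d L (i + 1) : ℝ) - chainX d L i) := by
  induction m with
  | zero => simp [chainX_zero]
  | succ m ih =>
    have h1 := ih (by omega)
    rw [sum_range_succ]
    have h2 : (L : ℝ) - d ≤ ((d - m : ℕ) : ℝ) * chainX d L (m + 1) := by
      rw [chainX_succ]
      have h3 : L < (d - m) * (L / (d - m)) + (d - m) := by
        have := Nat.lt_div_mul_add (a := L) (b := d - m) (by omega)
        rw [mul_comm (d - m)]
        exact this
      have h4 : (L : ℝ) < ((d - m : ℕ) : ℝ) * ((L / (d - m) : ℕ) : ℝ) + ((d - m : ℕ) : ℝ) := by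
        exact_mod_cast h3
      have h5 : ((d - m : ℕ) : ℝ) ≤ d := by
        exact_mod_cast Nat.sub_le d m
      linarith
    have h6 : ((d - m : ℕ) : ℝ) = ((d - (m + 1) : ℕ) : ℝ) + 1 := by
      have : d - m = (d - (m + 1)) + 1 := by omega
      rw [this]
      push_cast
      ring
    set t : ℝ := ((d - (m + 1) : ℕ) : ℝ) with ht
    rw [h6] at h1 h2 ⊢
    push_cast
    nlinarith

/-- all stages `k = d, d-1, ..., 1`, abstract form -/
theorem chain_abs (S : ℕ → ℝ) (d L s0 : ℕ) (hd : 1 ≤ d) (C q lam : ℝ) (hC : 1 ≤ C) (hs0 : 1 ≤ s0)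
    (hS : ∀ w, 0 ≤ S w)
    (h : ∀ k, 1 ≤ k → k ≤ d → ∀ w s : ℕ, k * (w + s) ≤ L → s ≤ s0 →
      S w ≤ C * (2 : ℝ) ^ ((q - 1 - (k : ℝ) * (k + 1) / 2 + lam) * s) * S (w + s)) :
    S 0 ≤ (C ^ (L / s0 + 1)) ^ d * 2 ^ (d ^ 2) * (2 : ℝ) ^ ((q - 1 - d + lam) * L) * S L := by
  have hC0 : 0 < C := by linarith
  have claim : ∀ m ≤ d, S 0 ≤ (C ^ (L / s0 + 1)) ^ m *
      (2 : ℝ) ^ (∑ i ∈ range m, (q - 1 - ((d - i : ℕ) : ℝ) * ((d - i : ℕ) + 1) / 2 + lam) *
        ((chainX d L (i + 1) : ℝ) - chainX d L i)) * S (chainX d L m) := by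
    intro m
    induction m with
    | zero =>
      intro _
      simp [chainX_zero]
    | succ m ih =>
      intro hm
      have h1 := ih (by omega)
      set e : ℝ := q - 1 - ((d - m : ℕ) : ℝ) * ((d - m : ℕ) + 1) / 2 + lam with he
      have h2 := stage_abs S C e s0 (chainX d L m) (chainX d L (m + 1)) hC hs0
        (chainX_mono d L m (by omega)) hS (by
          intro w s hw hws hs
          refine h (d - m) (by omega) (by omega) w s ?_ hs
          rw [chainX_succ] at hws
          calc (d - m) * (w + s) ≤ (d - m) * (L / (d - m)) := Nat.mul_le_mul_left _ hws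
            _ ≤ L := Nat.mul_div_le _ _)
      have h3 : C ^ ((chainX d L (m + 1) - chainX d L m) / s0 + 1) ≤ C ^ (L / s0 + 1) := by
        refine pow_le_pow_right₀ hC ?_
        have : (chainX d L (m + 1) - chainX d L m) / s0 ≤ L / s0 :=
          Nat.div_le_div_right ((Nat.sub_le _ _).trans (chainX_le d L (m + 1)))
        omega
      rw [sum_range_succ, Real.rpow_add two_pos, pow_succ]
      have h4 : 0 ≤ (C ^ (L / s0 + 1)) ^ m *
          (2 : ℝ) ^ (∑ i ∈ range m, (q - 1 - ((d - i : ℕ) : ℝ) * ((d - i : ℕ) + 1) / 2 + lam) *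
            ((chainX d L (i + 1) : ℝ) - chainX d L i)) := by positivity
      refine h1.trans ((mul_le_mul_of_nonneg_left h2 h4).trans ?_)
      have h5 : 0 ≤ (2 : ℝ) ^ (e * ((chainX d L (m + 1) : ℝ) - chainX d L m)) *
          S (chainX d L (m + 1)) := mul_nonneg (by positivity) (hS _)
      have h6 := mul_le_mul_of_nonneg_right h3 h5
      calc _ = ((C ^ (L / s0 + 1)) ^ m *
          (2 : ℝ) ^ (∑ i ∈ range m, (q - 1 - ((d - i : ℕ) : ℝ) * ((d - i : ℕ) + 1) / 2 + lam) *
            ((chainX d L (i + 1) : ℝ) - chainX d L i))) *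
          (C ^ ((chainX d L (m + 1) - chainX d L m) / s0 + 1) *
            ((2 : ℝ) ^ (e * ((chainX d L (m + 1) : ℝ) - chainX d L m)) *
              S (chainX d L (m + 1)))) := by ring
        _ ≤ ((C ^ (L / s0 + 1)) ^ m *
          (2 : ℝ) ^ (∑ i ∈ range m, (q - 1 - ((d - i : ℕ) : ℝ) * ((d - i : ℕ) + 1) / 2 + lam) *
            ((chainX d L (i + 1) : ℝ) - chainX d L i))) *
          (C ^ (L / s0 + 1) *
            ((2 : ℝ) ^ (e * ((chainX d L (m + 1) : ℝ) - chainX d L m)) *
              S (chainX d L (m + 1)))) := mul_le_mul_of_nonneg_left h6 h4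
        _ = _ := by ring
  have hlast := claim d le_rfl
  have hXd : chainX d L d = L := by
    obtain ⟨d', rfl⟩ : ∃ d', d = d' + 1 := ⟨d - 1, by omega⟩
    rw [chainX_succ]
    simp
  rw [hXd] at hlast
  have hexp : ∑ i ∈ range d, (q - 1 - ((d - i : ℕ) : ℝ) * ((d - i : ℕ) + 1) / 2 + lam) *
      ((chainX d L (i + 1) : ℝ) - chainX d L i) ≤ (d : ℝ) ^ 2 + (q - 1 - d + lam) * L := by
    have h1 := chainX_sum d L d le_rfl
    have h2 : ∑ i ∈ range d, ((chainX d L (i + 1) : ℝ) - chainX d L i) = L := by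
      rw [sum_range_sub (fun i => (chainX d L i : ℝ)), hXd, chainX_zero]
      simp
    have h3 : ∑ i ∈ range d, (q - 1 - ((d - i : ℕ) : ℝ) * ((d - i : ℕ) + 1) / 2 + lam) *
        ((chainX d L (i + 1) : ℝ) - chainX d L i) =
        (q - 1 + lam) * ∑ i ∈ range d, ((chainX d L (i + 1) : ℝ) - chainX d L i) -
        ∑ i ∈ range d, ((d - i : ℕ) : ℝ) * ((d - i : ℕ) + 1) / 2 *
          ((chainX d L (i + 1) : ℝ) - chainX d L i) := by
      rw [mul_sum, ← sum_sub_distrib]
      exact sum_congr rfl fun i _ => by ring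
    rw [h3, h2]
    simp only [Nat.sub_self, Nat.cast_zero] at h1
    nlinarith
  have hpow : (2 : ℝ) ^ (∑ i ∈ range d, (q - 1 - ((d - i : ℕ) : ℝ) * ((d - i : ℕ) + 1) / 2 + lam) *
      ((chainX d L (i + 1) : ℝ) - chainX d L i)) ≤
      2 ^ (d ^ 2) * (2 : ℝ) ^ ((q - 1 - d + lam) * L) := by
    rw [← Real.rpow_natCast 2 (d ^ 2), ← Real.rpow_add two_pos]
    refine Real.rpow_le_rpow_of_exponent_le one_le_two ?_
    push_cast
    exact hexp
  refine hlast.trans ?_
  have h7 : 0 ≤ (C ^ (L / s0 + 1)) ^ d := by positivity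
  have h8 := mul_le_mul_of_nonneg_left hpow h7
  have h9 := mul_le_mul_of_nonneg_right h8 (hS L)
  calc _ ≤ _ := h9
    _ = _ := by ring

end

end Pool.Agent.Helper19.RP
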