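import Pool.Agent.Helper19.RP.CStep
import Pool.Agent.Helper19.RP.CChainA

/-! RP module CChain: iteration of the decoupling step on the cone -/

set_option autoImplicit false

open MeasureTheory Filter Topology Finset

namespace Pool.Agent.Helper19.RP

noncomputable section

theorem cone_chain (n : ℕ) (hn : 2 ≤ n) (hMC : ∀ k, 1 ≤ k → k ≤ n - 1 → MC k) (lam : ℝ)
    (hlam : 0 < lam) : ∃ p0 : ℕ, ∀ p ≥ p0, Even p → ∃ c C : ℝ, 0 < c ∧ 1 ≤ C ∧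
      ∀ (M L s0 : ℕ) (κ ν : ℝ), 1 ≤ M → 1 ≤ s0 → 0 < κ → 2 ^ L ≤ c * κ → 0 ≤ ν →
        ν ≤ c * (1 / 2) ^ ((n - 1) * s0) → ∀ g : ℕ → E n → ℂ, Cone n M κ ν g →
        Sg n p M 0 g ≤ C ^ (L / s0 + 1) * (2 : ℝ) ^ (((p : ℝ) - 1 - ((n : ℝ) - 1) + lam) * L) *
          Sg n p M L g := by
  classical
  have h1 : ∀ k, ∃ p0 : ℕ, 1 ≤ k → k ≤ n - 1 → ∀ p ≥ p0, Even p → ∃ C : ℝ, 0 < C ∧
      ∀ M : ℕ, DecP k 2 p (2 ^ M)
        (C * (2 : ℝ) ^ (((p : ℝ) - 1 - (k : ℝ) * (k + 1) / 2 + lam) * M)) := by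
    intro k
    by_cases hk : 1 ≤ k ∧ k ≤ n - 1
    · obtain ⟨p0, hp0⟩ := hMC k hk.1 hk.2 2 (by norm_num) lam hlam
      exact ⟨p0, fun _ _ => hp0⟩
    · exact ⟨0, fun a b => absurd ⟨a, b⟩ hk⟩
  choose P0 hP0 using h1
  refine ⟨(range n).sup P0, ?_⟩
  intro p hp hev
  have h2 : ∀ k, ∃ C : ℝ, 0 < C ∧ (1 ≤ k → k ≤ n - 1 → ∀ M : ℕ, DecP k 2 p (2 ^ M)
        (C * (2 : ℝ) ^ (((p : ℝ) - 1 - (k : ℝ) * (k + 1) / 2 + lam) * M))) := by
    intro k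
    by_cases hk : 1 ≤ k ∧ k ≤ n - 1
    · have hk' : k ∈ range n := by rw [mem_range]; omega
      obtain ⟨C, hC, hD⟩ := hP0 k hk.1 hk.2 p (le_trans (Finset.le_sup hk') hp) hev
      exact ⟨C, hC, fun _ _ => hD⟩
    · exact ⟨1, one_pos, fun a b => absurd ⟨a, b⟩ hk⟩
  choose CC hCC0 hCC using h2
  have h3 : ∀ k, ∃ c : ℝ, 0 < c ∧ (1 ≤ k → k ≤ n - 1 → ∀ (M : ℕ) (κ ν D : ℝ) (u s : ℕ), 1 ≤ M →
      0 < κ → 0 ≤ ν → ν ≤ c * (1 / 2) ^ (k * s) →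
      2 ^ (k * (u + s)) ≤ c * κ → DecP k 2 p (2 ^ s) D → ∀ g : ℕ → E n → ℂ, Cone n M κ ν g →
      Sg n p M u g ≤ D * Sg n p M (u + s) g) := by
    intro k
    by_cases hk : 1 ≤ k ∧ k ≤ n - 1
    · obtain ⟨c, hc, h⟩ := cone_step k n p hk.1 hk.2
      exact ⟨c, hc, fun _ _ => h⟩
    · exact ⟨1, one_pos, fun a b => absurd ⟨a, b⟩ hk⟩
  choose cc hcc0 hcc using h3
  have hne : (range n).Nonempty := ⟨0, by rw [mem_range]; omega⟩
  set c : ℝ := (range n).inf' hne cc with hc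
  have hc0 : 0 < c := by
    rw [hc, Finset.lt_inf'_iff]
    intro k _
    exact hcc0 k
  have hcle : ∀ k, k ≤ n - 1 → c ≤ cc k := by
    intro k hk
    rw [hc]
    exact Finset.inf'_le _ (by rw [mem_range]; omega)
  set C1 : ℝ := 1 + ∑ k ∈ range n, CC k with hC1
  have hC1' : 1 ≤ C1 := by
    rw [hC1]
    have : 0 ≤ ∑ k ∈ range n, CC k := sum_nonneg fun k _ => (hCC0 k).le
    linarith
  have hCCle : ∀ k, k ≤ n - 1 → CC k ≤ C1 := by
    intro k hk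
    have h4 : CC k ≤ ∑ k ∈ range n, CC k :=
      single_le_sum (f := CC) (fun k _ => (hCC0 k).le) (by rw [mem_range]; omega)
    rw [hC1]; linarith
  set d := n - 1 with hd
  have hd1 : 1 ≤ d := by omega
  have hdr : (d : ℝ) = (n : ℝ) - 1 := by
    rw [hd, Nat.cast_sub (by omega)]; simp
  have hone : (1:ℝ) ≤ C1 ^ d * 2 ^ (d ^ 2) := by
    have a1 : (1:ℝ) ≤ C1 ^ d := one_le_pow₀ hC1'
    have a2 : (1:ℝ) ≤ 2 ^ (d ^ 2) := one_le_pow₀ (by norm_num)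
    nlinarith
  refine ⟨c, C1 ^ d * 2 ^ (d ^ 2), hc0, hone, ?_⟩
  intro M L s0 κ ν hM hs0 hκ hL hν hνc g hg
  have hch := chain_abs (fun w => Sg n p M w g) d L s0 hd1 C1 (p : ℝ) lam hC1' hs0
    (fun w => Sg_nonneg n p M w g) (by
      intro k hk1 hkd w s hws hss
      have hstep := hcc k hk1 hkd M κ ν
        (CC k * (2 : ℝ) ^ (((p : ℝ) - 1 - (k : ℝ) * (k + 1) / 2 + lam) * s)) w s hM hκ hν (by
          refine hνc.trans ?_
          have a1 : ((1:ℝ) / 2) ^ (d * s0) ≤ (1 / 2) ^ (k * s) := by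
            apply pow_le_pow_of_le_one (by norm_num) (by norm_num)
            exact Nat.mul_le_mul hkd hss
          have a2 := hcle k hkd
          have a3 := hcc0 k
          calc c * (1 / 2) ^ (d * s0) ≤ cc k * (1 / 2) ^ (k * s) := by gcongr
            _ = _ := rfl) (by
          have a1 : (2:ℝ) ^ (k * (w + s)) ≤ 2 ^ L := by
            apply pow_le_pow_right₀ (by norm_num) hws
          refine a1.trans (hL.trans ?_)
          have a2 := hcle k hkd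
          gcongr) (hCC k hk1 hkd s) g hg
      refine hstep.trans ?_
      have a2 := hCCle k hkd
      have a3 := Sg_nonneg n p M (w + s) g
      gcongr)
  refine hch.trans ?_
  rw [hdr]
  have a4 := Sg_nonneg n p M L g
  have a5 : (C1 ^ (L / s0 + 1)) ^ d * 2 ^ (d ^ 2) ≤ (C1 ^ d * 2 ^ (d ^ 2)) ^ (L / s0 + 1) := by
    rw [mul_pow, ← pow_mul, ← pow_mul, mul_comm (L / s0 + 1) d]
    have a6 : (2:ℝ) ^ (d ^ 2) ≤ (2 ^ (d ^ 2)) ^ (L / s0 + 1) := by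
      exact le_self_pow₀ (one_le_pow₀ (by norm_num)) (Nat.succ_ne_zero _)
    gcongr
  gcongr

end

end Pool.Agent.Helper19.RP
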