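import Pool.Agent.Helper19.RP.COrth

/-! RP module CTriv: trivial estimate -/

set_option autoImplicit false

open MeasureTheory Filter Topology Finset

namespace Pool.Agent.Helper19.RP

noncomputable section

/-- the inner sums are trigonometric sums -/
theorem TS_inner (n : ℕ) (S : Finset ℕ) (c : ℕ → ℂ) (t : ℝ) :
    TS (Set.univ : Set (E n)) (fun a => ∑ m ∈ S, c m * ch (m * pol a t)) := by
  have h := TS.sum (n := n) (S := Set.univ) S
    (f := fun m => fun a => c m * ch (dt a ((m : ℝ) • gam n t)))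
    (fun m _ => TS.single ((m : ℝ) • gam n t) (Set.mem_univ _) (c m))
  exact h.congr fun a => Finset.sum_congr rfl fun m _ => by rw [ch_pol]

/-- trivial bound (bounded frequencies, also `n = 1`) -/
theorem trivial_bound (n : ℕ) (hn : 1 ≤ n) (p : ℕ) (hp : 2 ≤ p) (R M : ℕ) (hR : 1 ≤ R) (hM : 1 ≤ M)
    (c : ℕ → ℕ → ℂ) (h : ∀ i < M, ∀ y : ℝ, ‖∑ m ∈ Icc R (4 * R), c i m * ch (m * y)‖ ≤ 1) :
    ∫ a, ‖(M : ℂ)⁻¹ * ∑ i ∈ range M, ∑ m ∈ Icc R (4 * R),
        c i m * ch (m * pol a ((i : ℝ) / M))‖ ^ p ∂(mu0 n) ≤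
      (mu0 n).real Set.univ * ((M : ℝ)⁻¹ * ∑ i ∈ range M, ∑ m ∈ Icc R (4 * R), ‖c i m‖ ^ 2) := by
  haveI := isFiniteMeasure_mu0 n
  have hM0 : (0 : ℝ) < M := by exact_mod_cast hM
  set f : ℕ → E n → ℂ := fun i a => ∑ m ∈ Icc R (4 * R), c i m * ch (m * pol a ((i : ℝ) / M))
    with hf
  have hTS : ∀ i, TS (Set.univ : Set (E n)) (f i) := fun i => TS_inner n _ _ _
  have hint : ∀ i, Integrable (fun a => ‖f i a‖ ^ p) (mu0 n) := fun i => (hTS i).integrable_pow p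
  have hint2 : Integrable (fun a => ∑ i ∈ range M, (M : ℝ)⁻¹ * ‖f i a‖ ^ p) (mu0 n) :=
    integrable_finsetSum _ fun i _ => (hint i).const_mul _
  have h1 : ∀ a, ‖(M : ℂ)⁻¹ * ∑ i ∈ range M, f i a‖ ^ p ≤
      ∑ i ∈ range M, (M : ℝ)⁻¹ * ‖f i a‖ ^ p := by
    intro a
    have h2 : ‖(M : ℂ)⁻¹ * ∑ i ∈ range M, f i a‖ ≤ ∑ i ∈ range M, (M : ℝ)⁻¹ * ‖f i a‖ := by
      rw [norm_mul, norm_inv, Complex.norm_natCast, ← Finset.mul_sum]
      exact mul_le_mul_of_nonneg_left (norm_sum_le _ _) (by positivity)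
    refine (pow_le_pow_left₀ (norm_nonneg _) h2 p).trans ?_
    refine Real.pow_arith_mean_le_arith_mean_pow _ _ _ (fun _ _ => by positivity) ?_
      (fun _ _ => norm_nonneg _) p
    rw [Finset.sum_const, Finset.card_range, nsmul_eq_mul, mul_inv_cancel₀ hM0.ne']
  calc ∫ a, ‖(M : ℂ)⁻¹ * ∑ i ∈ range M, f i a‖ ^ p ∂(mu0 n)
      ≤ ∫ a, ∑ i ∈ range M, (M : ℝ)⁻¹ * ‖f i a‖ ^ p ∂(mu0 n) :=
        integral_mono_of_nonneg (Filter.Eventually.of_forall fun a => by positivity) hint2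
          (Filter.Eventually.of_forall h1)
    _ = ∑ i ∈ range M, (M : ℝ)⁻¹ * ∫ a, ‖f i a‖ ^ p ∂(mu0 n) := by
        rw [integral_finsetSum _ fun i _ => (hint i).const_mul _]
        exact Finset.sum_congr rfl fun i _ => integral_const_mul _ _
    _ ≤ ∑ i ∈ range M, (M : ℝ)⁻¹ *
        ((mu0 n).real Set.univ * ∑ m ∈ Icc R (4 * R), ‖c i m‖ ^ 2) := by
        refine Finset.sum_le_sum fun i hi => mul_le_mul_of_nonneg_left ?_ (by positivity)
        exact integral_pow_mu0_le n hn p hp _ (c i) _ (h i (Finset.mem_range.1 hi))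
    _ = (mu0 n).real Set.univ * ((M : ℝ)⁻¹ * ∑ i ∈ range M, ∑ m ∈ Icc R (4 * R), ‖c i m‖ ^ 2) := by
        simp only [Finset.mul_sum]
        refine Finset.sum_congr rfl fun i _ => Finset.sum_congr rfl fun m _ => ?_
        ring

end

end Pool.Agent.Helper19.RP
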