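import Pool.Agent.Helper19.RP.CBand
import Pool.Agent.Helper19.RP.CTriv

/-! RP module CFin: conclusion of the chapter CONE -/

set_option autoImplicit false

open MeasureTheory Filter Topology Finset

namespace Pool.Agent.Helper19.RP

noncomputable section

/-- choice of the parameters -/
theorem cfin_params (d E : ℕ) (hd : 1 ≤ d) (hE : 2 * d ≤ E) (c : ℝ) (hc : 0 < c) (hc1 : c ≤ 1) :
    ∃ C' R0 : ℝ, 0 < C' ∧ 1 ≤ R0 ∧ ∀ R : ℕ, R0 ≤ R → ∃ L s0 H B : ℕ, 1 ≤ s0 ∧ 1 ≤ H ∧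
      (2 : ℝ) ^ L ≤ c * R ∧ (R : ℝ) ≤ 4 / c * 2 ^ L ∧ (H : ℝ) ≤ c * (1 / 2) ^ (d * s0) * R ∧
      L / s0 + 1 ≤ E ∧ 4 * R ≤ B * H ∧ ((B + 1 : ℕ) : ℝ) ≤ C' * (R : ℝ) ^ ((d : ℝ) / E) := by
  have hE0 : 0 < E := by omega
  have hEr : (0 : ℝ) < E := by exact_mod_cast hE0
  have h2d : (1 : ℝ) ≤ 2 ^ d := one_le_pow₀ one_le_two
  have hq : 1 ≤ 2 ^ d / c := by
    rw [le_div_iff₀ hc]
    linarith
  refine ⟨8 * 2 ^ d / c + 2, (2 ^ d / c) ^ 2, by positivity, one_le_pow₀ hq, fun R hR => ?_⟩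
  have hR1 : (1 : ℝ) ≤ R := (one_le_pow₀ hq).trans hR
  have hR0 : (0 : ℝ) < R := by linarith
  have hcR : 1 ≤ c * R := by
    have h1 : 2 ^ d / c ≤ R := by
      refine le_trans ?_ hR
      nlinarith
    rw [div_le_iff₀ hc] at h1
    linarith
  set N := ⌊c * R⌋₊ with hN
  have hN1 : 1 ≤ N := by
    rw [hN, Nat.one_le_floor_iff]
    exact hcR
  set L := Nat.log 2 N with hL
  have hL1 : 2 ^ L ≤ N := Nat.pow_log_le_self 2 (by omega)
  have hL2 : N < 2 ^ (L + 1) := Nat.lt_pow_succ_log_self one_lt_two N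
  have hL3 : (2 : ℝ) ^ L ≤ c * R := by
    have h1 : ((2 ^ L : ℕ) : ℝ) ≤ N := by exact_mod_cast hL1
    have h2 : (N : ℝ) ≤ c * R := Nat.floor_le (by positivity)
    push_cast at h1
    linarith
  have hL4 : c * R < 2 * 2 ^ L := by
    have h1 : c * R < N + 1 := Nat.lt_floor_add_one _
    have h2 : ((N + 1 : ℕ) : ℝ) ≤ ((2 ^ (L + 1) : ℕ) : ℝ) := by exact_mod_cast hL2
    push_cast at h2
    rw [pow_succ] at h2
    linarith
  set s0 := L / E + 1 with hs0
  have hρ1 : (1 : ℝ) ≤ (R : ℝ) ^ ((d : ℝ) / E) := Real.one_le_rpow hR1 (by positivity)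
  set ρ : ℝ := (R : ℝ) ^ ((d : ℝ) / E) with hρ
  have hpow : (2 : ℝ) ^ (d * s0) ≤ 2 ^ d * ρ := by
    have h1 : (2 : ℝ) ^ (d * s0) = 2 ^ d * 2 ^ (d * (L / E)) := by
      rw [hs0, ← pow_add]
      congr 1
      ring
    rw [h1]
    refine mul_le_mul_of_nonneg_left ?_ (by positivity)
    have h2 : (2 : ℝ) ^ (d * (L / E)) ≤ ((2 : ℝ) ^ L) ^ ((d : ℝ) / E) := by
      rw [← Real.rpow_natCast 2 (d * (L / E)), ← Real.rpow_natCast 2 L, ← Real.rpow_mul two_pos.le]
      refine Real.rpow_le_rpow_of_exponent_le one_le_two ?_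
      have h3 : ((L / E : ℕ) : ℝ) ≤ (L : ℝ) / E := Nat.cast_div_le
      push_cast
      calc (d : ℝ) * ((L / E : ℕ) : ℝ) ≤ d * ((L : ℝ) / E) := by gcongr
        _ = L * ((d : ℝ) / E) := by ring
    refine h2.trans ?_
    rw [hρ]
    refine Real.rpow_le_rpow (by positivity) ?_ (by positivity)
    nlinarith
  have hpow0 : (0 : ℝ) < 2 ^ (d * s0) := by positivity
  set x : ℝ := c * (1 / 2) ^ (d * s0) * R with hx
  have hxe : x = c * R / 2 ^ (d * s0) := by
    rw [hx, one_div, inv_pow]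
    field_simp
  have hx1 : 1 ≤ x := by
    rw [hxe, le_div_iff₀ hpow0, one_mul]
    refine hpow.trans ?_
    have h1 : ρ ≤ Real.sqrt R := by
      rw [hρ, Real.sqrt_eq_rpow]
      refine Real.rpow_le_rpow_of_exponent_le hR1 ?_
      rw [div_le_div_iff₀ hEr two_pos]
      have : ((2 * d : ℕ) : ℝ) ≤ E := by exact_mod_cast hE
      push_cast at this
      linarith
    have h2 : 2 ^ d / c ≤ Real.sqrt R := by
      rw [Real.le_sqrt (by positivity) hR0.le]
      exact hR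
    have h3 : Real.sqrt R * Real.sqrt R = R := Real.mul_self_sqrt hR0.le
    rw [div_le_iff₀ hc] at h2
    have h4 : 0 ≤ Real.sqrt R := Real.sqrt_nonneg _
    calc (2 : ℝ) ^ d * ρ ≤ (Real.sqrt R * c) * Real.sqrt R := by gcongr
      _ = c * (Real.sqrt R * Real.sqrt R) := by ring
      _ = c * R := by rw [h3]
  set H := ⌊x⌋₊ with hH
  have hH1 : 1 ≤ H := by
    rw [hH, Nat.one_le_floor_iff]
    exact hx1
  have hHr : (1 : ℝ) ≤ H := by exact_mod_cast hH1
  have hHx : (H : ℝ) ≤ x := Nat.floor_le (by linarith)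
  have hHx2 : x ≤ 2 * H := by
    have := Nat.lt_floor_add_one x
    rw [← hH] at this
    linarith
  have hs01 : 1 ≤ s0 := by
    rw [hs0]
    exact Nat.le_add_left 1 _
  refine ⟨L, s0, H, 4 * R / H + 1, hs01, hH1, hL3, ?_, hHx, ?_, ?_, ?_⟩
  · rw [div_mul_eq_mul_div, le_div_iff₀ hc]
    have : (0 : ℝ) < 2 ^ L := by positivity
    linarith
  · have h1 : L < s0 * E := by
      rw [hs0]
      have := Nat.lt_div_mul_add (a := L) (b := E) hE0
      calc L < L / E * E + E := this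
        _ = (L / E + 1) * E := by ring
    have h2 : L / s0 < E := by
      rw [Nat.div_lt_iff_lt_mul hs01]
      rwa [mul_comm]
    omega
  · have := Nat.lt_div_mul_add (a := 4 * R) (b := H) (by omega)
    calc 4 * R ≤ 4 * R / H * H + H := this.le
      _ = (4 * R / H + 1) * H := by ring
  · push_cast
    have h1 : ((4 * R / H : ℕ) : ℝ) ≤ (4 * R : ℝ) / H := by
      have := Nat.cast_div_le (α := ℝ) (m := 4 * R) (n := H)
      push_cast at this
      exact this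
    have h2 : (4 * R : ℝ) / H ≤ 8 * R / x := by
      rw [div_le_div_iff₀ (by linarith) (by linarith)]
      nlinarith
    have h3 : 8 * R / x = 8 * 2 ^ (d * s0) / c := by
      rw [hxe]
      field_simp
    have h4 : 8 * 2 ^ (d * s0) / c ≤ 8 * (2 ^ d * ρ) / c := by gcongr
    have h5 : (8 * 2 ^ d / c + 2) * ρ = 8 * (2 ^ d * ρ) / c + 2 * ρ := by ring
    rw [h5]
    linarith

/-- power mean inequality for norms -/
theorem cfin_norm_pow (B p : ℕ) (hp : 1 ≤ p) (G : ℕ → ℂ) :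
    ‖∑ b ∈ range (B + 1), G b‖ ^ p ≤ ((B + 1 : ℕ) : ℝ) ^ (p - 1) *
      ∑ b ∈ range (B + 1), ‖G b‖ ^ p := by
  obtain ⟨q, rfl⟩ : ∃ q, p = q + 1 := ⟨p - 1, by omega⟩
  have h1 : ‖∑ b ∈ range (B + 1), G b‖ ^ (q + 1) ≤ (∑ b ∈ range (B + 1), ‖G b‖) ^ (q + 1) :=
    pow_le_pow_left₀ (norm_nonneg _) (norm_sum_le _ _) _
  have h3 := pow_sum_div_card_le_sum_pow (s := range (B + 1)) (f := fun b => ‖G b‖) (n := q)
    (fun _ _ => norm_nonneg _)
  rw [card_range, div_le_iff₀ (by positivity)] at h3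
  rw [Nat.add_sub_cancel]
  linarith

theorem propA_of_MC (n : ℕ) (hn : 1 ≤ n) (hMC : ∀ k, 1 ≤ k → k ≤ n - 1 → MC k) : PropA n := by
  intro lam hlam
  have hfin : IsFiniteMeasure (mu0 n) := isFiniteMeasure_mu0 n
  have hmu : 0 ≤ (mu0 n).real Set.univ := measureReal_nonneg
  rcases Nat.lt_or_ge n 2 with hn2 | hn2
  · obtain rfl : n = 1 := by omega
    refine ⟨2, fun p hp _ => ⟨(mu0 1).real Set.univ + 1, by positivity, ?_⟩⟩
    intro R M hR hM c h
    have h1 := trivial_bound 1 le_rfl p hp R M hR (hR.trans hM) c h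
    refine h1.trans ?_
    have h2 : (1 : ℝ) ≤ (R : ℝ) ^ (-(((1 : ℕ) : ℝ) - 1) + lam) := by
      refine Real.one_le_rpow (by exact_mod_cast hR) ?_
      simp
      exact hlam.le
    refine mul_le_mul_of_nonneg_right ?_ ?_
    · nlinarith
    · positivity
  · obtain ⟨p0, hp0⟩ := band_bound n hn2 hMC (lam / 2) (by positivity)
    refine ⟨max p0 2, fun p hp hpe => ?_⟩
    have hp2 : 2 ≤ p := (le_max_right _ _).trans hp
    obtain ⟨c, C, hc, hc1, hC, hband⟩ := hp0 p ((le_max_left _ _).trans hp) hpe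
    obtain ⟨A0, hA0⟩ := exists_nat_ge (2 * (p : ℝ) * (n - 1 : ℕ) / lam)
    set d := n - 1 with hd
    have hd1 : 1 ≤ d := by omega
    set A := max A0 (2 * d) with hA
    have hEd : 2 * d ≤ A := le_max_right _ _
    have hEr : (0 : ℝ) < A := by
      have : 0 < A := by omega
      exact_mod_cast this
    have hEl : (p : ℝ) * ((d : ℝ) / A) ≤ lam / 2 := by
      have h1 : 2 * (p : ℝ) * d / lam ≤ A := hA0.trans (by exact_mod_cast le_max_left _ _)
      rw [div_le_iff₀ hlam] at h1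
      rw [← mul_div_assoc, div_le_iff₀ hEr]
      linarith
    obtain ⟨C', R0, hC', hR0, hpar⟩ := cfin_params d A hd1 hEd c hc hc1
    refine ⟨C' ^ p * C ^ A + ((mu0 n).real Set.univ + 1) * R0 ^ d, by positivity, ?_⟩
    intro R M hR hM cf h
    have hM1 : 1 ≤ M := hR.trans hM
    have hMr : (0 : ℝ) < M := by exact_mod_cast hM1
    have hRr : (1 : ℝ) ≤ R := by exact_mod_cast hR
    have hR0' : (0 : ℝ) < R := by linarith
    have hnd : (n : ℝ) - 1 = d := by
      rw [hd, Nat.cast_sub (by omega)]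
      simp
    set Sg2 : ℝ := ∑ i ∈ range M, ∑ m ∈ Icc R (4 * R), ‖cf i m‖ ^ 2 with hSg2
    have hSg0 : 0 ≤ Sg2 := sum_nonneg fun i _ => sum_nonneg fun m _ => by positivity
    have hT0 : 0 ≤ (M : ℝ)⁻¹ * Sg2 := by positivity
    rw [hnd]
    rcases lt_or_ge (R : ℝ) R0 with hlt | hge
    · refine (trivial_bound n hn p hp2 R M hR hM1 cf h).trans ?_
      refine mul_le_mul_of_nonneg_right ?_ hT0
      have h1 : 1 ≤ R0 ^ d * (R : ℝ) ^ (-(d : ℝ) + lam) := by
        rw [Real.rpow_add hR0', Real.rpow_neg hR0'.le, Real.rpow_natCast]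
        have h2 : (1 : ℝ) ≤ (R : ℝ) ^ lam := Real.one_le_rpow hRr hlam.le
        have h3 : (R : ℝ) ^ d ≤ R0 ^ d := pow_le_pow_left₀ hR0'.le hlt.le d
        have h4 : 1 ≤ R0 ^ d * ((R : ℝ) ^ d)⁻¹ := by
          rw [← div_eq_mul_inv, le_div_iff₀ (by positivity)]
          linarith
        calc (1 : ℝ) ≤ (R0 ^ d * ((R : ℝ) ^ d)⁻¹) * (R : ℝ) ^ lam := by nlinarith
          _ = _ := by ring
      have h5 : 0 ≤ C' ^ p * C ^ A * (R : ℝ) ^ (-(d : ℝ) + lam) := by positivity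
      calc (mu0 n).real Set.univ ≤ ((mu0 n).real Set.univ + 1) * 1 := by linarith
        _ ≤ ((mu0 n).real Set.univ + 1) * (R0 ^ d * (R : ℝ) ^ (-(d : ℝ) + lam)) := by gcongr
        _ ≤ _ := by linarith
    · obtain ⟨L, s0, H, B, hs0, hH, hL1, hL2, hHx, hLE, hB, hB1⟩ := hpar R hge
      -- the bands
      set G : ℕ → E n → ℂ := fun b a => ∑ i ∈ range M, ∑ m ∈ Icc R (4 * R),
        (hat H b m : ℂ) * cf i m * ch (m * pol a ((i : ℝ) / M)) with hG
      have hGTS : ∀ b, TS Set.univ (G b) := by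
        intro b
        refine TS.sum _ fun i _ => TS.sum _ fun m _ => ?_
        refine (TS.single ((m : ℝ) • gam n ((i : ℝ) / M)) (Set.mem_univ _)
          ((hat H b m : ℂ) * cf i m)).congr fun a => ?_
        rw [ch_pol]
      have hsplit : ∀ a : E n, ∑ i ∈ range M, ∑ m ∈ Icc R (4 * R),
          cf i m * ch (m * pol a ((i : ℝ) / M)) = ∑ b ∈ range (B + 1), G b a := by
        intro a
        simp only [hG]
        symm
        rw [sum_comm]
        refine sum_congr rfl fun i _ => ?_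
        rw [sum_comm]
        refine sum_congr rfl fun m hm => ?_
        symm
        rw [mem_Icc] at hm
        have h1 := hat_sum H hH B m (hm.2.trans hB)
        have h2 : (∑ b ∈ range (B + 1), (hat H b m : ℂ)) = 1 := by
          rw [← Complex.ofReal_sum, h1, Complex.ofReal_one]
        calc cf i m * ch (m * pol a ((i : ℝ) / M))
            = (∑ b ∈ range (B + 1), (hat H b m : ℂ)) *
              (cf i m * ch (m * pol a ((i : ℝ) / M))) := by rw [h2, one_mul]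
          _ = _ := by
            rw [sum_mul]
            exact sum_congr rfl fun b _ => by ring
      have hpt : ∀ a : E n, ‖(M : ℂ)⁻¹ * ∑ i ∈ range M, ∑ m ∈ Icc R (4 * R),
          cf i m * ch (m * pol a ((i : ℝ) / M))‖ ^ p ≤
          ((M : ℝ) ^ p)⁻¹ * (((B + 1 : ℕ) : ℝ) ^ (p - 1) * ∑ b ∈ range (B + 1), ‖G b a‖ ^ p) := by
        intro a
        rw [hsplit a, norm_mul, mul_pow, norm_inv, Complex.norm_natCast, inv_pow]
        exact mul_le_mul_of_nonneg_left (cfin_norm_pow B p (by omega) _) (by positivity)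
      have hint : ∀ b, Integrable (fun a => ‖G b a‖ ^ p) (mu0 n) := fun b =>
        (hGTS b).integrable_pow p
      have hI : ∫ a, ‖(M : ℂ)⁻¹ * ∑ i ∈ range M, ∑ m ∈ Icc R (4 * R),
          cf i m * ch (m * pol a ((i : ℝ) / M))‖ ^ p ∂(mu0 n) ≤
          ((M : ℝ) ^ p)⁻¹ * (((B + 1 : ℕ) : ℝ) ^ (p - 1) *
            ∑ b ∈ range (B + 1), ∫ a, ‖G b a‖ ^ p ∂(mu0 n)) := by
        rw [← integral_finsetSum _ fun b _ => hint b, ← integral_const_mul,
          ← integral_const_mul]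
        refine integral_mono_of_nonneg (Eventually.of_forall fun a => by positivity) ?_
          (Eventually.of_forall hpt)
        exact ((integrable_finsetSum _ fun b _ => hint b).const_mul _).const_mul _
      have hb : ∀ b, ∫ a, ‖G b a‖ ^ p ∂(mu0 n) ≤
          C ^ A * (R : ℝ) ^ (-(d : ℝ) + lam / 2) * (M : ℝ) ^ (p - 1) * Sg2 := by
        intro b
        have h1 := hband R M H b L s0 hR hM hs0 hH hL1 hL2 hHx cf h
        rw [hnd] at h1
        refine h1.trans ?_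
        have h2 : C ^ (L / s0 + 1) ≤ C ^ A := pow_le_pow_right₀ hC hLE
        gcongr
      have hsum : ∑ b ∈ range (B + 1), ∫ a, ‖G b a‖ ^ p ∂(mu0 n) ≤
          ((B + 1 : ℕ) : ℝ) * (C ^ A * (R : ℝ) ^ (-(d : ℝ) + lam / 2) * (M : ℝ) ^ (p - 1) *
            Sg2) := by
        refine (sum_le_sum fun b _ => hb b).trans ?_
        rw [sum_const, card_range, nsmul_eq_mul]
      have hBp : ((B + 1 : ℕ) : ℝ) ^ p ≤ C' ^ p * (R : ℝ) ^ (lam / 2) := by
        calc ((B + 1 : ℕ) : ℝ) ^ p ≤ (C' * (R : ℝ) ^ ((d : ℝ) / A)) ^ p := by gcongr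
          _ = C' ^ p * (R : ℝ) ^ ((p : ℝ) * ((d : ℝ) / A)) := by
            rw [mul_pow, ← Real.rpow_natCast ((R : ℝ) ^ ((d : ℝ) / A)) p,
              ← Real.rpow_mul hR0'.le, mul_comm ((d : ℝ) / A)]
          _ ≤ _ := by
            refine mul_le_mul_of_nonneg_left ?_ (by positivity)
            exact Real.rpow_le_rpow_of_exponent_le hRr hEl
      have hMp : ((M : ℝ) ^ p)⁻¹ * (M : ℝ) ^ (p - 1) = (M : ℝ)⁻¹ := by
        obtain ⟨q, rfl⟩ : ∃ q, p = q + 1 := ⟨p - 1, by omega⟩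
        rw [Nat.add_sub_cancel, pow_succ]
        field_simp
      have hBB : ((B + 1 : ℕ) : ℝ) ^ (p - 1) * ((B + 1 : ℕ) : ℝ) = ((B + 1 : ℕ) : ℝ) ^ p := by
        rw [← pow_succ]
        congr 1
        omega
      calc _ ≤ ((M : ℝ) ^ p)⁻¹ * (((B + 1 : ℕ) : ℝ) ^ (p - 1) *
            (((B + 1 : ℕ) : ℝ) * (C ^ A * (R : ℝ) ^ (-(d : ℝ) + lam / 2) * (M : ℝ) ^ (p - 1) *
            Sg2))) := by
            refine hI.trans ?_
            gcongr
        _ = (((B + 1 : ℕ) : ℝ) ^ (p - 1) * ((B + 1 : ℕ) : ℝ)) *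
            (((M : ℝ) ^ p)⁻¹ * (M : ℝ) ^ (p - 1)) * (C ^ A * (R : ℝ) ^ (-(d : ℝ) + lam / 2) *
            Sg2) := by ring
        _ = ((B + 1 : ℕ) : ℝ) ^ p * (C ^ A * (R : ℝ) ^ (-(d : ℝ) + lam / 2) *
            ((M : ℝ)⁻¹ * Sg2)) := by rw [hBB, hMp]; ring
        _ ≤ (C' ^ p * (R : ℝ) ^ (lam / 2)) * (C ^ A * (R : ℝ) ^ (-(d : ℝ) + lam / 2) *
            ((M : ℝ)⁻¹ * Sg2)) := by gcongr
        _ = C' ^ p * C ^ A * ((R : ℝ) ^ (lam / 2) * (R : ℝ) ^ (-(d : ℝ) + lam / 2)) *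
            ((M : ℝ)⁻¹ * Sg2) := by ring
        _ = C' ^ p * C ^ A * (R : ℝ) ^ (-(d : ℝ) + lam) * ((M : ℝ)⁻¹ * Sg2) := by
            rw [← Real.rpow_add hR0']
            congr 3
            ring
        _ ≤ _ := by
            have h6 : 0 ≤ ((mu0 n).real Set.univ + 1) * R0 ^ d * (R : ℝ) ^ (-(d : ℝ) + lam) := by
              positivity
            refine mul_le_mul_of_nonneg_right ?_ hT0
            linarith

end

end Pool.Agent.Helper19.RP
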