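import Pool.Agent.Helper19.RP.CB

/-! RP module CGeo: the moment curve and the boxes -/

set_option autoImplicit false

open MeasureTheory Filter Topology Finset

namespace Pool.Agent.Helper19.RP

noncomputable section

/-- the frames form a one-parameter group -/
theorem CGeo_group (j a : ℕ) (s t : ℝ) :
    ∑ i ∈ range (j + 1), ((j + 1).choose (i + 1) : ℝ) * s ^ (j - i) *
      (((i + 1).choose (a + 1) : ℝ) * t ^ (i - a)) =
      ((j + 1).choose (a + 1) : ℝ) * (s + t) ^ (j - a) := by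
  rcases Nat.lt_or_ge j a with hja | haj
  · rw [Nat.choose_eq_zero_of_lt (show j + 1 < a + 1 by omega)]
    simp only [Nat.cast_zero, zero_mul]
    refine Finset.sum_eq_zero fun i hi => ?_
    rw [mem_range] at hi
    rw [Nat.choose_eq_zero_of_lt (show i + 1 < a + 1 by omega)]
    simp
  · obtain ⟨m, rfl⟩ : ∃ m, j = a + m := ⟨j - a, by omega⟩
    have h0 : range (a + m + 1) = range (a + (m + 1)) := by rw [add_assoc]
    rw [h0, Finset.sum_range_add]
    have h1 : ∑ i ∈ range a, ((a + m + 1).choose (i + 1) : ℝ) * s ^ (a + m - i) *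
        (((i + 1).choose (a + 1) : ℝ) * t ^ (i - a)) = 0 := by
      refine Finset.sum_eq_zero fun i hi => ?_
      rw [mem_range] at hi
      rw [Nat.choose_eq_zero_of_lt (show i + 1 < a + 1 by omega)]
      simp
    rw [h1, zero_add, add_comm s t, Nat.add_sub_cancel_left, add_pow, Finset.mul_sum]
    refine Finset.sum_congr rfl fun l hl => ?_
    rw [mem_range] at hl
    have h2 := Nat.choose_mul (n := a + m + 1) (k := a + l + 1) (s := a + 1)
      (by omega)
    rw [show a + m + 1 - (a + 1) = m by omega, show a + l + 1 - (a + 1) = l by omega] at h2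
    have h3 : ((a + m + 1).choose (a + l + 1) : ℝ) * ((a + l + 1).choose (a + 1) : ℝ) =
        ((a + m + 1).choose (a + 1) : ℝ) * (m.choose l : ℝ) := by exact_mod_cast h2
    rw [show a + m - (a + l) = m - l by omega, Nat.add_sub_cancel_left]
    calc ((a + m + 1).choose (a + l + 1) : ℝ) * s ^ (m - l) *
          (((a + l + 1).choose (a + 1) : ℝ) * t ^ l)
        = (((a + m + 1).choose (a + l + 1) : ℝ) * ((a + l + 1).choose (a + 1) : ℝ)) *
          (t ^ l * s ^ (m - l)) := by ring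
      _ = _ := by rw [h3]; ring

/-- the sum over `Fin k` reduces to the first `j + 1` terms -/
theorem CGeo_sum {k : ℕ} (j : Fin k) (F : ℕ → ℝ) (hF : ∀ i, j.1 < i → F i = 0) :
    ∑ i : Fin k, F i.1 = ∑ i ∈ range (j.1 + 1), F i := by
  rw [Fin.sum_univ_eq_sum_range (fun i => F i) k]
  symm
  refine Finset.sum_subset ?_ ?_
  · intro i hi
    rw [mem_range] at hi ⊢
    omega
  · intro i _ hi
    rw [mem_range] at hi
    exact hF i (by omega)

/-- Taylor expansion of the moment curve -/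
theorem mom_add (k : ℕ) (t θ : ℝ) :
    mom k (t + θ) = mom k t + ∑ i : Fin k, θ ^ (i.1 + 1) • fr k t i := by
  funext j
  simp only [Pi.add_apply, Finset.sum_apply, Pi.smul_apply, smul_eq_mul, mom, fr]
  rw [CGeo_sum j (fun i => θ ^ (i + 1) * (((j.1 + 1).choose (i + 1) : ℝ) * t ^ (j.1 - i)))
    (fun i hi => by
      rw [Nat.choose_eq_zero_of_lt (show j.1 + 1 < i + 1 by omega)]
      simp)]
  rw [add_comm t θ, add_pow, Finset.sum_range_succ']
  simp only [pow_zero, Nat.sub_zero, one_mul, Nat.choose_zero_right, Nat.cast_one, mul_one]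
  rw [add_comm]
  congr 1
  refine Finset.sum_congr rfl fun i _ => ?_
  rw [show j.1 + 1 - (i + 1) = j.1 - i by omega]
  ring

/-- bounded coordinates in the frame -/
theorem exists_fr_coord (k : ℕ) : ∃ C : ℝ, 1 ≤ C ∧ ∀ θ ∈ Set.Icc (0 : ℝ) 1, ∀ (e : E k) (δ : ℝ),
    (∀ i, |e i| ≤ δ) → ∃ y : E k, (∀ i, |y i| ≤ C * δ) ∧ e = ∑ i, y i • fr k θ i := by
  refine ⟨k * 2 ^ k + 1, by
    have : (0 : ℝ) ≤ k * 2 ^ k := by positivity
    linarith, fun θ hθ e δ he => ?_⟩
  refine ⟨fun i => ∑ a, e a * fr k (-θ) a i, fun i => ?_, ?_⟩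
  · have hδ : 0 ≤ δ := (abs_nonneg _).trans (he i)
    refine (Finset.abs_sum_le_sum_abs _ _).trans ?_
    calc ∑ a, |e a * fr k (-θ) a i| ≤ ∑ _a : Fin k, δ * 2 ^ k := by
          refine Finset.sum_le_sum fun a _ => ?_
          rw [abs_mul]
          have h1 : |fr k (-θ) a i| ≤ 2 ^ k := by
            rw [fr, abs_mul, abs_pow, abs_neg, Nat.abs_cast, abs_of_nonneg hθ.1]
            have h2 : ((i.1 + 1).choose (a.1 + 1) : ℝ) ≤ 2 ^ k := by
              have h3 := Nat.choose_le_two_pow (i.1 + 1) (a.1 + 1)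
              have h4 : 2 ^ (i.1 + 1) ≤ 2 ^ k := Nat.pow_le_pow_right (by norm_num) i.2
              exact_mod_cast h3.trans h4
            have h5 : θ ^ (i.1 - a.1) ≤ 1 := pow_le_one₀ hθ.1 hθ.2
            have h6 : 0 ≤ θ ^ (i.1 - a.1) := pow_nonneg hθ.1 _
            calc ((i.1 + 1).choose (a.1 + 1) : ℝ) * θ ^ (i.1 - a.1) ≤ 2 ^ k * 1 := by gcongr
              _ = 2 ^ k := mul_one _
          gcongr
          exact he a
      _ = k * 2 ^ k * δ := by
          rw [Finset.sum_const, card_univ, Fintype.card_fin, nsmul_eq_mul]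
          ring
      _ ≤ (k * 2 ^ k + 1) * δ := by nlinarith
  · funext j
    simp only [Finset.sum_apply, Pi.smul_apply, smul_eq_mul]
    have h1 : ∀ a : Fin k, ∑ i : Fin k, fr k (-θ) a i * fr k θ i j = if a = j then 1 else 0 := by
      intro a
      simp only [fr]
      rw [CGeo_sum j (fun i => ((i + 1).choose (a.1 + 1) : ℝ) * (-θ) ^ (i - a.1) *
        (((j.1 + 1).choose (i + 1) : ℝ) * θ ^ (j.1 - i))) (fun i hi => by
          rw [Nat.choose_eq_zero_of_lt (show j.1 + 1 < i + 1 by omega)]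
          simp)]
      have h2 := CGeo_group j.1 a.1 θ (-θ)
      rw [add_neg_cancel] at h2
      have h3 : ∑ i ∈ range (j.1 + 1), ((i + 1).choose (a.1 + 1) : ℝ) * (-θ) ^ (i - a.1) *
          (((j.1 + 1).choose (i + 1) : ℝ) * θ ^ (j.1 - i)) =
          ((j.1 + 1).choose (a.1 + 1) : ℝ) * 0 ^ (j.1 - a.1) := by
        rw [← h2]
        exact Finset.sum_congr rfl fun i _ => by ring
      rw [h3]
      split_ifs with haj
      · subst haj
        simp
      · rcases lt_trichotomy a.1 j.1 with h4 | h4 | h4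
        · rw [zero_pow (by omega), mul_zero]
        · exact absurd (Fin.ext h4) haj
        · rw [Nat.choose_eq_zero_of_lt (show j.1 + 1 < a.1 + 1 by omega)]
          simp
    have h5 : ∑ i, (∑ a, e a * fr k (-θ) a i) * fr k θ i j =
        ∑ a, e a * ∑ i, fr k (-θ) a i * fr k θ i j := by
      simp only [Finset.sum_mul, Finset.mul_sum]
      rw [Finset.sum_comm]
      exact Finset.sum_congr rfl fun a _ => Finset.sum_congr rfl fun i _ => by ring
    rw [h5]
    simp [h1]

/-- points near the curve lie in the boxes -/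
theorem exists_mem_box (k : ℕ) : ∃ c : ℝ, 0 < c ∧ ∀ θ0 σ θ : ℝ, 0 ≤ θ0 → θ0 ≤ 1 → 0 < σ → σ ≤ 1 →
    θ0 ≤ θ → θ ≤ θ0 + σ → ∀ e : E k, (∀ i, |e i| ≤ c * σ ^ k) →
    mom k θ + e ∈ box k 2 θ0 σ ∧ e ∈ dbox k 2 θ0 σ := by
  obtain ⟨C, hC1, hC⟩ := exists_fr_coord k
  have hC0 : 0 < C := by linarith
  refine ⟨1 / C, by positivity, ?_⟩
  intro θ0 σ θ h0 h1 hσ0 hσ1 hθ1 hθ2 e he
  obtain ⟨y, hy, hey⟩ := hC θ0 ⟨h0, h1⟩ e _ he
  have hyσ : ∀ i : Fin k, |y i| ≤ σ ^ (i.1 + 1) := by
    intro i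
    calc |y i| ≤ C * (1 / C * σ ^ k) := hy i
      _ = σ ^ k := by field_simp
      _ ≤ σ ^ (i.1 + 1) := pow_le_pow_of_le_one hσ0.le hσ1 i.2
  constructor
  · refine ⟨fun i => (θ - θ0) ^ (i.1 + 1) + y i, fun i => ?_, ?_⟩
    · refine (abs_add_le _ _).trans ?_
      have h2 : |(θ - θ0) ^ (i.1 + 1)| ≤ σ ^ (i.1 + 1) := by
        rw [abs_pow, abs_of_nonneg (by linarith)]
        exact pow_le_pow_left₀ (by linarith) (by linarith) _
      have := hyσ i
      linarith
    · have h3 := mom_add k θ0 (θ - θ0)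
      rw [add_sub_cancel] at h3
      rw [h3, add_assoc]
      congr 1
      conv_lhs => rw [hey]
      rw [← Finset.sum_add_distrib]
      exact Finset.sum_congr rfl fun i _ => by rw [add_smul]
  · refine ⟨y, fun i => ?_, hey⟩
    have := hyσ i
    have h4 : 0 < σ ^ (i.1 + 1) := by positivity
    linarith

end

end Pool.Agent.Helper19.RP
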