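import Pool.Agent.Helper19.RP.CB

/-! RP module CMu: the reference measure -/

set_option autoImplicit false

open MeasureTheory Filter Topology Finset

namespace Pool.Agent.Helper19.RP

noncomputable section

theorem CMu_cont_bet : Continuous bet := by
  unfold bet
  exact (Real.continuous_sinc.comp (continuous_const.mul continuous_id)).pow 2

theorem CMu_bet_nonneg (x : ℝ) : 0 ≤ bet x := by
  unfold bet; positivity

theorem CMu_bet_le (x : ℝ) : bet x ≤ 2 * (1 + x ^ 2)⁻¹ := by
  unfold bet
  have hpos : (0 : ℝ) < 1 + x ^ 2 := by positivity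
  rw [← div_eq_mul_inv, le_div_iff₀ hpos]
  by_cases hx : |x| ≤ 1
  · have h1 : Real.sinc (Real.pi * x) ^ 2 ≤ 1 := by
      rw [sq_le_one_iff_abs_le_one]
      exact Real.abs_sinc_le_one _
    have h2 : x ^ 2 ≤ 1 := by rwa [sq_le_one_iff_abs_le_one]
    nlinarith [sq_nonneg (Real.sinc (Real.pi * x)), sq_nonneg x]
  · push Not at hx
    have hx0 : x ≠ 0 := by
      intro h; rw [h] at hx; norm_num at hx
    have hpx : Real.pi * x ≠ 0 := mul_ne_zero Real.pi_ne_zero hx0
    rw [Real.sinc_of_ne_zero hpx, div_pow, div_mul_eq_mul_div,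
      div_le_iff₀ (by positivity)]
    have h1 : Real.sin (Real.pi * x) ^ 2 ≤ 1 := Real.sin_sq_le_one _
    have h2 : 1 ≤ x ^ 2 := by
      rw [one_le_sq_iff_one_le_abs]; exact hx.le
    have h3 : 1 ≤ Real.pi ^ 2 := by nlinarith [Real.pi_gt_three]
    rw [mul_pow]
    nlinarith [sq_nonneg (Real.sin (Real.pi * x)), mul_le_mul h3 h2 (by norm_num) (by positivity)]

/-- `bet` is integrable -/
theorem integrable_bet : Integrable bet := by
  refine (integrable_inv_one_add_sq.const_mul 2).mono' CMu_cont_bet.aestronglyMeasurable ?_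
  refine Filter.Eventually.of_forall fun x => ?_
  rw [Real.norm_of_nonneg (CMu_bet_nonneg x)]
  exact CMu_bet_le x

/-- the hat function -/
def CMu_Lam (v : ℝ) : ℂ := ((max (1 - |v|) 0 : ℝ) : ℂ)

theorem CMu_Lam_cont : Continuous CMu_Lam := by
  unfold CMu_Lam
  fun_prop

theorem CMu_Lam_zero (v : ℝ) (h : 1 ≤ |v|) : CMu_Lam v = 0 := by
  unfold CMu_Lam
  rw [max_eq_right (by linarith)]
  simp

theorem CMu_Lam_integrable : Integrable CMu_Lam := by
  apply CMu_Lam_cont.integrable_of_hasCompactSupport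
  refine HasCompactSupport.intro (isCompact_Icc (a := (-1 : ℝ)) (b := 1)) fun v hv => ?_
  apply CMu_Lam_zero
  by_contra h
  push Not at h
  rw [abs_lt] at h
  exact hv ⟨h.1.le, h.2.le⟩

theorem CMu_int1 (c : ℂ) (hc : c ≠ 0) :
    ∫ v in (0 : ℝ)..1, Complex.exp (c * v) * (1 - v) = Complex.exp c / c ^ 2 - 1 / c - 1 / c ^ 2 := by
  have hd : ∀ v : ℝ, HasDerivAt (fun v : ℝ => (1 - (v : ℂ)) * Complex.exp (c * v) / c +
      Complex.exp (c * v) / c ^ 2) (Complex.exp (c * v) * (1 - v)) v := by
    intro v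
    have h0 : HasDerivAt (fun v : ℝ => (v : ℂ)) 1 v := Complex.ofRealCLM.hasDerivAt
    have h1 : HasDerivAt (fun v : ℝ => c * (v : ℂ)) (c * 1) v := h0.const_mul c
    have h2 := h1.cexp
    have h3 := (((h0.const_sub 1).mul h2).div_const c).add (h2.div_const (c ^ 2))
    refine h3.congr_deriv ?_
    field_simp
    ring
  rw [intervalIntegral.integral_eq_sub_of_hasDerivAt (fun v _ => hd v)
    (Continuous.intervalIntegrable (by fun_prop) _ _)]
  simp
  ring

theorem CMu_int2 (c : ℂ) (hc : c ≠ 0) :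
    ∫ v in (-1 : ℝ)..0, Complex.exp (c * v) * (1 + v) =
      Complex.exp (-c) / c ^ 2 + 1 / c - 1 / c ^ 2 := by
  have hd : ∀ v : ℝ, HasDerivAt (fun v : ℝ => (1 + (v : ℂ)) * Complex.exp (c * v) / c -
      Complex.exp (c * v) / c ^ 2) (Complex.exp (c * v) * (1 + v)) v := by
    intro v
    have h0 : HasDerivAt (fun v : ℝ => (v : ℂ)) 1 v := Complex.ofRealCLM.hasDerivAt
    have h1 : HasDerivAt (fun v : ℝ => c * (v : ℂ)) (c * 1) v := h0.const_mul c
    have h2 := h1.cexp
    have h3 := (((h0.const_add 1).mul h2).div_const c).sub (h2.div_const (c ^ 2))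
    refine h3.congr_deriv ?_
    field_simp
    ring
  rw [intervalIntegral.integral_eq_sub_of_hasDerivAt (fun v _ => hd v)
    (Continuous.intervalIntegrable (by fun_prop) _ _)]
  simp
  ring

theorem CMu_fourier (x : ℝ) : FourierTransform.fourier CMu_Lam x = ((bet x : ℝ) : ℂ) := by
  rw [Real.fourier_real_eq_integral_exp_smul]
  have h0 : ∫ v : ℝ, Complex.exp (↑(-2 * Real.pi * v * x) * Complex.I) • CMu_Lam v =
      ∫ v in (-1 : ℝ)..1, Complex.exp (↑(-2 * Real.pi * v * x) * Complex.I) • CMu_Lam v := by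
    rw [intervalIntegral.integral_eq_integral_of_support_subset]
    intro v hv
    rw [Function.mem_support] at hv
    have : |v| < 1 := by
      by_contra h
      push Not at h
      exact hv (by rw [CMu_Lam_zero v h, smul_zero])
    rw [abs_lt] at this
    exact ⟨this.1, this.2.le⟩
  rw [h0]
  have hcont : Continuous fun v : ℝ =>
      Complex.exp (↑(-2 * Real.pi * v * x) * Complex.I) • CMu_Lam v := by
    have h1 : Continuous fun v : ℝ => Complex.exp (↑(-2 * Real.pi * v * x) * Complex.I) := by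
      fun_prop
    exact h1.smul CMu_Lam_cont
  rw [← intervalIntegral.integral_add_adjacent_intervals (b := 0)
    (hcont.intervalIntegrable _ _) (hcont.intervalIntegrable _ _)]
  set c : ℂ := -2 * Real.pi * x * Complex.I with hc
  have e1 : ∫ v in (-1 : ℝ)..0, Complex.exp (↑(-2 * Real.pi * v * x) * Complex.I) • CMu_Lam v =
      ∫ v in (-1 : ℝ)..0, Complex.exp (c * v) * (1 + v) := by
    apply intervalIntegral.integral_congr
    intro v hv
    rw [Set.uIcc_of_le (by norm_num)] at hv
    have h1 : CMu_Lam v = 1 + v := by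
      unfold CMu_Lam
      rw [abs_of_nonpos hv.2, max_eq_left (by linarith [hv.1])]
      push_cast; ring
    simp only [smul_eq_mul, h1]
    congr 2
    rw [hc]; push_cast; ring
  have e2 : ∫ v in (0 : ℝ)..1, Complex.exp (↑(-2 * Real.pi * v * x) * Complex.I) • CMu_Lam v =
      ∫ v in (0 : ℝ)..1, Complex.exp (c * v) * (1 - v) := by
    apply intervalIntegral.integral_congr
    intro v hv
    rw [Set.uIcc_of_le (by norm_num)] at hv
    have h1 : CMu_Lam v = 1 - v := by
      unfold CMu_Lam
      rw [abs_of_nonneg hv.1, max_eq_left (by linarith [hv.2])]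
      push_cast; ring
    simp only [smul_eq_mul, h1]
    congr 2
    rw [hc]; push_cast; ring
  rw [e1, e2]
  by_cases hx : x = 0
  · have hc0 : c = 0 := by rw [hc, hx]; simp
    rw [hc0, hx]
    have i1 : ∫ v in (-1 : ℝ)..0, Complex.exp (0 * (v : ℂ)) * (1 + v) = 1 / 2 := by
      have hd : ∀ v : ℝ, HasDerivAt (fun v : ℝ => (v : ℂ) + (v : ℂ) * v / 2)
          (Complex.exp (0 * (v : ℂ)) * (1 + v)) v := by
        intro v
        have h0 : HasDerivAt (fun v : ℝ => (v : ℂ)) 1 v := Complex.ofRealCLM.hasDerivAt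
        have h3 := h0.add ((h0.mul h0).div_const 2)
        refine h3.congr_deriv ?_
        simp
      rw [intervalIntegral.integral_eq_sub_of_hasDerivAt (fun v _ => hd v)
        (Continuous.intervalIntegrable (by fun_prop) _ _)]
      push_cast
      norm_num
    have i2 : ∫ v in (0 : ℝ)..1, Complex.exp (0 * (v : ℂ)) * (1 - v) = 1 / 2 := by
      have hd : ∀ v : ℝ, HasDerivAt (fun v : ℝ => (v : ℂ) - (v : ℂ) * v / 2)
          (Complex.exp (0 * (v : ℂ)) * (1 - v)) v := by
        intro v
        have h0 : HasDerivAt (fun v : ℝ => (v : ℂ)) 1 v := Complex.ofRealCLM.hasDerivAt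
        have h3 := h0.sub ((h0.mul h0).div_const 2)
        refine h3.congr_deriv ?_
        simp
      rw [intervalIntegral.integral_eq_sub_of_hasDerivAt (fun v _ => hd v)
        (Continuous.intervalIntegrable (by fun_prop) _ _)]
      push_cast
      norm_num
    rw [i1, i2]
    unfold bet
    simp
    norm_num
  · have hcne : c ≠ 0 := by
      rw [hc]
      simp [hx, Real.pi_ne_zero]
    rw [CMu_int1 c hcne, CMu_int2 c hcne]
    unfold bet
    rw [Real.sinc_of_ne_zero (mul_ne_zero Real.pi_ne_zero hx)]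
    have hs : Complex.exp c + Complex.exp (-c) - 2 = -4 * (Complex.sin (Real.pi * x)) ^ 2 := by
      have h2 : Complex.exp c + Complex.exp (-c) = 2 * Complex.cos (2 * (Real.pi * x)) := by
        rw [Complex.two_cos, hc, add_comm]
        congr 2 <;> ring
      rw [h2, Complex.cos_two_mul]
      have := Complex.sin_sq_add_cos_sq ((Real.pi : ℂ) * x)
      linear_combination (4 : ℂ) * this
    have hcc : c ^ 2 = -4 * ((Real.pi : ℂ) * x) ^ 2 := by
      rw [hc]
      have : Complex.I ^ 2 = -1 := Complex.I_sq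
      linear_combination (4 * (Real.pi : ℂ) ^ 2 * x ^ 2) * this
    have hne : ((Real.pi : ℂ) * x) ≠ 0 := by
      refine mul_ne_zero ?_ ?_
      · exact_mod_cast Real.pi_ne_zero
      · exact_mod_cast hx
    have hfin : Complex.exp (-c) / c ^ 2 + 1 / c - 1 / c ^ 2 +
        (Complex.exp c / c ^ 2 - 1 / c - 1 / c ^ 2) =
        (Complex.exp c + Complex.exp (-c) - 2) / c ^ 2 := by ring
    rw [hfin, hs, hcc]
    push_cast
    field_simp

/-- the Fourier transform of `sinc (π x)^2` vanishes outside `[-1,1]` -/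
theorem integral_bet_ch (ζ : ℝ) (h : 1 ≤ |ζ|) : ∫ x : ℝ, (bet x : ℂ) * ch (x * ζ) = 0 := by
  have hF : FourierTransform.fourier CMu_Lam = fun x : ℝ => ((bet x : ℝ) : ℂ) :=
    funext CMu_fourier
  have hFi : Integrable (FourierTransform.fourier CMu_Lam) := by
    rw [hF]; exact integrable_bet.ofReal
  have hinv := Continuous.fourierInv_fourier_eq CMu_Lam_cont CMu_Lam_integrable hFi
  have h1 := congrFun hinv ζ
  rw [hF, Real.fourierInv_eq', CMu_Lam_zero ζ h] at h1
  rw [← h1]
  apply integral_congr_ae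
  refine Filter.Eventually.of_forall fun x => ?_
  simp only [smul_eq_mul, ch]
  rw [mul_comm]
  congr 2
  simp only [RCLike.inner_apply, conj_trivial]
  push_cast; ring

theorem CMu_integrable_prod (n : ℕ) : Integrable (fun a : E n => ∏ j, bet (a j)) := by
  exact MeasureTheory.Integrable.fintype_prod (ι := Fin n) (E := ℝ)
    (f := fun _ => bet) (μ := fun _ => volume) (fun _ => integrable_bet)

theorem isFiniteMeasure_mu0 (n : ℕ) : IsFiniteMeasure (mu0 n) := by
  unfold mu0
  exact isFiniteMeasure_withDensity_ofReal (CMu_integrable_prod n).2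

theorem integral_ch_mu0 (n : ℕ) (ζ : E n) (h : ∃ j, 1 ≤ |ζ j|) :
    ∫ a, ch (dt a ζ) ∂(mu0 n) = 0 := by
  unfold mu0
  have hmeas : Measurable fun a : E n => (∏ j, bet (a j)) :=
    Finset.measurable_prod _ fun j _ => CMu_cont_bet.measurable.comp (measurable_pi_apply j)
  have e1 : ∫ a, ch (dt a ζ) ∂(volume.withDensity fun a : E n => ENNReal.ofReal (∏ j, bet (a j))) =
      ∫ a : E n, (∏ j, bet (a j)) • ch (dt a ζ) := by
    have := integral_withDensity_eq_integral_smul (μ := (volume : Measure (E n)))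
      (f := fun a => (∏ j, bet (a j)).toNNReal) hmeas.real_toNNReal (fun a => ch (dt a ζ))
    rw [show (fun a : E n => ENNReal.ofReal (∏ j, bet (a j))) =
      fun a : E n => (((∏ j, bet (a j)).toNNReal : NNReal) : ENNReal) from rfl, this]
    apply integral_congr_ae
    refine Filter.Eventually.of_forall fun a => ?_
    simp only
    rw [NNReal.smul_def, Real.coe_toNNReal _ (Finset.prod_nonneg fun j _ => CMu_bet_nonneg _)]
  rw [e1]
  have e2 : ∀ a : E n, (∏ j, bet (a j)) • ch (dt a ζ) = ∏ j, ((bet (a j) : ℂ) * ch (a j * ζ j)) := by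
    intro a
    rw [Finset.prod_mul_distrib]
    have : ch (dt a ζ) = ∏ j, ch (a j * ζ j) := by
      unfold dt
      have key : ∀ s : Finset (Fin n), ch (∑ j ∈ s, a j * ζ j) = ∏ j ∈ s, ch (a j * ζ j) := by
        intro s
        classical
        induction s using Finset.induction_on with
        | empty => simp [ch_zero]
        | insert b s hb ih => rw [Finset.sum_insert hb, Finset.prod_insert hb, ch_add, ih]
      exact key Finset.univ
    rw [this]
    simp
  simp_rw [e2]
  have e3 := MeasureTheory.integral_fintype_prod_volume_eq_prod (ι := Fin n) (E := fun _ => ℝ)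
    (f := fun j x => (bet x : ℂ) * ch (x * ζ j))
  obtain ⟨j, hj⟩ := h
  rw [e3]
  exact Finset.prod_eq_zero (Finset.mem_univ j) (integral_bet_ch (ζ j) hj)

end

end Pool.Agent.Helper19.RP
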