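import Pool.Agent.Helper19.RP.CMu

/-! RP module COrth: orthogonality along a point evaluation -/

set_option autoImplicit false

open MeasureTheory Filter Topology Finset

namespace Pool.Agent.Helper19.RP

noncomputable section

/-- the vector `(1, t, ..., t^(n-1))` -/
def gam (n : ℕ) (t : ℝ) : E n := fun j => t ^ j.1

theorem pol_eq_dt {n : ℕ} (a : E n) (t : ℝ) : pol a t = dt a (gam n t) := rfl

theorem ch_pol {n : ℕ} (a : E n) (t : ℝ) (m : ℝ) : ch (m * pol a t) = ch (dt a (m • gam n t)) := by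
  rw [pol_eq_dt, dt_smul_right]

theorem corth_integrable (n : ℕ) (ζ : E n) : Integrable (fun a => ch (dt a ζ)) (mu0 n) := by
  have := isFiniteMeasure_mu0 n
  refine Integrable.of_bound (C := 1) (continuous_ch_dt ζ).aestronglyMeasurable ?_
  exact Filter.Eventually.of_forall fun a => (norm_ch _).le

theorem corth_mul (n : ℕ) (t : ℝ) (m m' : ℕ) (a : E n) :
    ch (m * pol a t) * (starRingEnd ℂ) (ch (m' * pol a t)) =
      ch (dt a (((m : ℝ) - m') • gam n t)) := by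
  rw [← ch_neg, ← ch_add, ← ch_pol]
  congr 1
  ring

theorem corth_integral (n : ℕ) (hn : 1 ≤ n) (t : ℝ) (m m' : ℕ) :
    ∫ a, ch (dt a (((m : ℝ) - m') • gam n t)) ∂(mu0 n) =
      if m = m' then (((mu0 n).real Set.univ : ℝ) : ℂ) else 0 := by
  split_ifs with h
  · subst h
    have h1 : ∀ a : E n, ch (dt a (((m : ℝ) - m) • gam n t)) = 1 := by
      intro a
      rw [sub_self, zero_smul, dt_zero_right, ch_zero]
    simp only [h1]
    rw [integral_const]
    simp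
  · apply integral_ch_mu0
    refine ⟨⟨0, hn⟩, ?_⟩
    have h1 : (((m : ℝ) - m') • gam n t) ⟨0, hn⟩ = (m : ℝ) - m' := by
      simp [gam]
    rw [h1]
    have h2 : (1 : ℤ) ≤ |(m : ℤ) - m'| := by
      apply Int.one_le_abs
      intro h3
      apply h
      omega
    have h3 : ((1 : ℤ) : ℝ) ≤ ((|(m : ℤ) - m'| : ℤ) : ℝ) := by exact_mod_cast h2
    simpa using h3

theorem integral_sq_mu0 (n : ℕ) (hn : 1 ≤ n) (S : Finset ℕ) (c : ℕ → ℂ) (t : ℝ) :
    ∫ a, ‖∑ m ∈ S, c m * ch (m * pol a t)‖ ^ 2 ∂(mu0 n) =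
      (mu0 n).real Set.univ * ∑ m ∈ S, ‖c m‖ ^ 2 := by
  have h1 : ∀ a : E n, ((‖∑ m ∈ S, c m * ch (m * pol a t)‖ ^ 2 : ℝ) : ℂ) =
      ∑ m ∈ S, ∑ m' ∈ S, (c m * (starRingEnd ℂ) (c m')) *
        ch (dt a (((m : ℝ) - m') • gam n t)) := by
    intro a
    have h2 : ((‖∑ m ∈ S, c m * ch (m * pol a t)‖ ^ 2 : ℝ) : ℂ) =
        (∑ m ∈ S, c m * ch (m * pol a t)) *
          (starRingEnd ℂ) (∑ m ∈ S, c m * ch (m * pol a t)) := by
      rw [Complex.mul_conj, Complex.normSq_eq_norm_sq]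
    rw [h2, map_sum, Finset.sum_mul_sum]
    refine Finset.sum_congr rfl fun m _ => Finset.sum_congr rfl fun m' _ => ?_
    rw [map_mul, ← corth_mul]
    ring
  have h3 : ((∫ a, ‖∑ m ∈ S, c m * ch (m * pol a t)‖ ^ 2 ∂(mu0 n) : ℝ) : ℂ) =
      (((mu0 n).real Set.univ * ∑ m ∈ S, ‖c m‖ ^ 2 : ℝ) : ℂ) := by
    rw [← integral_complex_ofReal]
    simp only [h1]
    rw [integral_finsetSum _ fun m _ => integrable_finsetSum _ fun m' _ =>
      (corth_integrable n _).const_mul _]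
    have h4 : ∀ m ∈ S, ∫ a, ∑ m' ∈ S, (c m * (starRingEnd ℂ) (c m')) *
        ch (dt a (((m : ℝ) - m') • gam n t)) ∂(mu0 n) =
        (((mu0 n).real Set.univ : ℝ) : ℂ) * ((‖c m‖ ^ 2 : ℝ) : ℂ) := by
      intro m hm
      rw [integral_finsetSum _ fun m' _ => (corth_integrable n _).const_mul _]
      have h5 : ∀ m' ∈ S, ∫ a, (c m * (starRingEnd ℂ) (c m')) *
          ch (dt a (((m : ℝ) - m') • gam n t)) ∂(mu0 n) =
          if m = m' then (((mu0 n).real Set.univ : ℝ) : ℂ) * ((‖c m‖ ^ 2 : ℝ) : ℂ) else 0 := by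
        intro m' _
        rw [integral_const_mul, corth_integral n hn]
        split_ifs with h
        · subst h
          rw [Complex.mul_conj, Complex.normSq_eq_norm_sq]
          ring
        · rw [mul_zero]
      rw [Finset.sum_congr rfl h5, Finset.sum_ite_eq, if_pos hm]
    rw [Finset.sum_congr rfl h4, ← Finset.mul_sum]
    push_cast
    rfl
  exact_mod_cast h3

theorem integral_pow_mu0_le (n : ℕ) (hn : 1 ≤ n) (p : ℕ) (hp : 2 ≤ p) (S : Finset ℕ) (c : ℕ → ℂ)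
    (t : ℝ) (h : ∀ y : ℝ, ‖∑ m ∈ S, c m * ch (m * y)‖ ≤ 1) :
    ∫ a, ‖∑ m ∈ S, c m * ch (m * pol a t)‖ ^ p ∂(mu0 n) ≤
      (mu0 n).real Set.univ * ∑ m ∈ S, ‖c m‖ ^ 2 := by
  have := isFiniteMeasure_mu0 n
  rw [← integral_sq_mu0 n hn S c t]
  have hc : Continuous fun a : E n => ∑ m ∈ S, c m * ch (m * pol a t) := by
    refine continuous_finsetSum _ fun m _ => continuous_const.mul ?_
    have h1 : (fun a : E n => ch (m * pol a t)) = fun a : E n => ch (dt a ((m : ℝ) • gam n t)) := by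
      funext a
      exact ch_pol a t m
    rw [h1]
    exact continuous_ch_dt _
  have hb : ∃ B : ℝ, ∀ a : E n, ‖∑ m ∈ S, c m * ch (m * pol a t)‖ ≤ B := ⟨1, fun a => h _⟩
  refine integral_mono (integrable_norm_pow hc hb p) (integrable_norm_pow hc hb 2) fun a => ?_
  exact pow_le_pow_of_le_one (norm_nonneg _) (h _) hp

end

end Pool.Agent.Helper19.RP
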