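import Pool.Agent.Helper19.RP.COrth
import Pool.Agent.Helper19.RP.CArc

/-! RP module CSg: sums over the arcs of a level -/

set_option autoImplicit false

open MeasureTheory Filter Topology Finset

namespace Pool.Agent.Helper19.RP

noncomputable section

/-- sum of the `p`-th powers of the norms of the sums over the arcs of level `u` -/
def Sg (n p M u : ℕ) (g : ℕ → E n → ℂ) : ℝ :=
  ∑ a ∈ range (2 ^ u), ∫ x, ‖∑ i ∈ arc M u a, g i x‖ ^ p ∂(mu0 n)

/-- `Sg` at level zero -/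
theorem Sg_zero (n p M : ℕ) (hM : 1 ≤ M) (g : ℕ → E n → ℂ) :
    Sg n p M 0 g = ∫ x, ‖∑ i ∈ range M, g i x‖ ^ p ∂(mu0 n) := by
  unfold Sg
  rw [pow_zero, range_one, sum_singleton]
  congr 1
  funext x
  rw [sum_arc_zero M hM (fun i => g i x)]

theorem CSg_pow (s : Finset ℕ) (f : ℕ → ℂ) (p : ℕ) (hp : 1 ≤ p) :
    ‖∑ i ∈ s, f i‖ ^ p ≤ (s.card : ℝ) ^ (p - 1) * ∑ i ∈ s, ‖f i‖ ^ p := by
  obtain ⟨q, rfl⟩ : ∃ q, p = q + 1 := ⟨p - 1, by omega⟩
  rcases s.eq_empty_or_nonempty with rfl | hne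
  · simp
  · have hc : (0:ℝ) < (s.card : ℝ) := by exact_mod_cast hne.card_pos
    have h := pow_sum_div_card_le_sum_pow (s := s) (f := fun i => ‖f i‖)
      (fun i _ => norm_nonneg _) q
    rw [div_le_iff₀ (by positivity)] at h
    have h2 : ‖∑ i ∈ s, f i‖ ^ (q + 1) ≤ (∑ i ∈ s, ‖f i‖) ^ (q + 1) :=
      pow_le_pow_left₀ (norm_nonneg _) (norm_sum_le _ _) _
    rw [Nat.add_sub_cancel]
    linarith

/-- trivial estimate at the final level -/
theorem Sg_le (n p M u : ℕ) (hM : 1 ≤ M) (hp : 1 ≤ p) (h : 2 ^ u ≤ M) (g : ℕ → E n → ℂ)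
    (hg : ∀ i < M, TS Set.univ (g i)) :
    Sg n p M u g ≤ (2 * M / 2 ^ u) ^ (p - 1) * ∑ i ∈ range M, ∫ x, ‖g i x‖ ^ p ∂(mu0 n) := by
  haveI := isFiniteMeasure_mu0 n
  unfold Sg
  have h1 : ∀ a ∈ range (2 ^ u), ∫ x, ‖∑ i ∈ arc M u a, g i x‖ ^ p ∂(mu0 n) ≤
      (2 * M / 2 ^ u) ^ (p - 1) * ∑ i ∈ arc M u a, ∫ x, ‖g i x‖ ^ p ∂(mu0 n) := by
    intro a _
    have hTS : ∀ i ∈ arc M u a, TS Set.univ (g i) := fun i hi => hg i (mem_arc.1 hi).1
    have hint : ∀ i ∈ arc M u a, Integrable (fun x => ‖g i x‖ ^ p) (mu0 n) :=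
      fun i hi => (hTS i hi).integrable_pow p
    rw [← integral_finset_sum _ hint, ← integral_const_mul]
    apply integral_mono
    · exact (TS.sum _ hTS).integrable_pow p
    · exact (integrable_finset_sum _ hint).const_mul _
    · intro x
      refine (CSg_pow (arc M u a) (fun i => g i x) p hp).trans ?_
      apply mul_le_mul_of_nonneg_right _ (sum_nonneg fun i _ => by positivity)
      exact pow_le_pow_left₀ (by positivity) (card_arc_le M u a hM h) _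
  refine (sum_le_sum h1).trans ?_
  rw [← mul_sum, sum_arc_all M u hM (fun i => ∫ x, ‖g i x‖ ^ p ∂(mu0 n))]

theorem Sg_nonneg (n p M u : ℕ) (g : ℕ → E n → ℂ) : 0 ≤ Sg n p M u g := by
  unfold Sg
  exact Finset.sum_nonneg fun a _ => integral_nonneg fun x => by positivity

end

end Pool.Agent.Helper19.RP
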