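import Pool.Agent.Helper19.RP.COrth

/-! RP module CShear: the shear -/

set_option autoImplicit false

open MeasureTheory Filter Topology Finset

namespace Pool.Agent.Helper19.RP

noncomputable section

/-- the shear used in the decoupling step -/
def shear (n k : ℕ) (κ τ : ℝ) (u : ℕ) : E n →+ E k :=
  AddMonoidHom.mk' (fun ζ => fun j => κ⁻¹ * 2 ^ (u * (j.1 + 1)) *
    ∑ i : Fin n, ((j.1 + 1).choose i.1 : ℝ) * (-τ) ^ (j.1 + 1 - i.1) * ζ i) (by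
      intro ζ ζ'
      funext j
      simp only [Pi.add_apply, mul_add, Finset.sum_add_distrib])

theorem shear_apply (n k : ℕ) (κ τ : ℝ) (u : ℕ) (ζ : E n) (j : Fin k) :
    shear n k κ τ u ζ j = κ⁻¹ * 2 ^ (u * (j.1 + 1)) *
      ∑ i : Fin n, ((j.1 + 1).choose i.1 : ℝ) * (-τ) ^ (j.1 + 1 - i.1) * ζ i := rfl

theorem CShear_sum (n m : ℕ) (hm : m + 1 ≤ n) (F : ℕ → ℝ) (hF : ∀ i, m < i → F i = 0) :
    ∑ i : Fin n, F i.1 = ∑ i ∈ range (m + 1), F i := by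
  rw [Finset.sum_range, ← Finset.sum_range (fun i => F i), ← Finset.sum_range (fun i => F i)]
  refine (Finset.sum_subset (Finset.range_subset_range.mpr hm) fun i _ hi => ?_).symm
  exact hF i (by simpa using hi)

theorem shear_gam (n k : ℕ) (hk : k ≤ n - 1) (hn : 1 ≤ n) (κ τ x t : ℝ) (u : ℕ) (j : Fin k) :
    shear n k κ τ u (x • gam n t) j = x / κ * (2 ^ u * (t - τ)) ^ (j.1 + 1) := by
  rw [shear_apply]
  have h1 : ∑ i : Fin n, ((j.1 + 1).choose i.1 : ℝ) * (-τ) ^ (j.1 + 1 - i.1) * (x • gam n t) i =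
      ∑ i : Fin n, (fun i : ℕ => ((j.1 + 1).choose i : ℝ) * (-τ) ^ (j.1 + 1 - i) * (x * t ^ i)) i.1 := by
    refine Finset.sum_congr rfl fun i _ => ?_
    simp [gam]
  have h0 := CShear_sum n (j.1 + 1) (by have := j.2; omega)
    (fun i : ℕ => ((j.1 + 1).choose i : ℝ) * (-τ) ^ (j.1 + 1 - i) * (x * t ^ i)) (fun i hi => by
      rw [Nat.choose_eq_zero_of_lt hi]
      simp)
  rw [h1, h0]
  have h2 : (t - τ) ^ (j.1 + 1) = ∑ i ∈ range (j.1 + 1 + 1),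
      t ^ i * (-τ) ^ (j.1 + 1 - i) * ((j.1 + 1).choose i : ℝ) := by
    rw [sub_eq_add_neg, add_pow]
  rw [mul_pow, h2, ← pow_mul, Finset.mul_sum, Finset.mul_sum, Finset.mul_sum]
  refine Finset.sum_congr rfl fun i _ => ?_
  rw [div_eq_mul_inv]
  ring

theorem shear_bound (n k : ℕ) (κ τ : ℝ) (hκ : 0 < κ) (hτ : 0 ≤ τ) (hτ1 : τ ≤ 1) (u : ℕ) (ζ : E n)
    (hζ : ∀ j, |ζ j| ≤ 1) (j : Fin k) :
    |shear n k κ τ u ζ j| ≤ 2 ^ k * 2 ^ (k * u) / κ := by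
  rw [shear_apply, abs_mul, abs_of_pos (by positivity : (0:ℝ) < κ⁻¹ * 2 ^ (u * (j.1 + 1)))]
  have hj : j.1 + 1 ≤ k := j.2
  have h1 : |∑ i : Fin n, ((j.1 + 1).choose i.1 : ℝ) * (-τ) ^ (j.1 + 1 - i.1) * ζ i| ≤ 2 ^ k := by
    calc |∑ i : Fin n, ((j.1 + 1).choose i.1 : ℝ) * (-τ) ^ (j.1 + 1 - i.1) * ζ i|
        ≤ ∑ i : Fin n, |((j.1 + 1).choose i.1 : ℝ) * (-τ) ^ (j.1 + 1 - i.1) * ζ i| :=
          Finset.abs_sum_le_sum_abs _ _
      _ ≤ ∑ i : Fin n, ((j.1 + 1).choose i.1 : ℝ) := by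
          refine Finset.sum_le_sum fun i _ => ?_
          rw [abs_mul, abs_mul, abs_pow, abs_neg, abs_of_nonneg hτ,
            abs_of_nonneg (by positivity : (0:ℝ) ≤ ((j.1 + 1).choose i.1 : ℝ))]
          have h2 : τ ^ (j.1 + 1 - i.1) ≤ 1 := pow_le_one₀ hτ hτ1
          have h3 : τ ^ (j.1 + 1 - i.1) * |ζ i| ≤ 1 :=
            mul_le_one₀ h2 (abs_nonneg _) (hζ i)
          calc ((j.1 + 1).choose i.1 : ℝ) * τ ^ (j.1 + 1 - i.1) * |ζ i|
              = ((j.1 + 1).choose i.1 : ℝ) * (τ ^ (j.1 + 1 - i.1) * |ζ i|) := by ring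
            _ ≤ ((j.1 + 1).choose i.1 : ℝ) * 1 := by gcongr
            _ = _ := mul_one _
      _ = ∑ i ∈ range n, ((j.1 + 1).choose i : ℝ) := by
          rw [Finset.sum_range]
      _ ≤ ∑ i ∈ range (max n (j.1 + 1 + 1)), ((j.1 + 1).choose i : ℝ) :=
          Finset.sum_le_sum_of_subset_of_nonneg
            (Finset.range_subset_range.mpr (le_max_left _ _)) fun _ _ _ => by positivity
      _ = ∑ i ∈ range (j.1 + 1 + 1), ((j.1 + 1).choose i : ℝ) := by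
          refine (Finset.sum_subset (Finset.range_subset_range.mpr (le_max_right _ _))
            fun i _ hi => ?_).symm
          rw [Finset.mem_range, not_lt] at hi
          rw [Nat.choose_eq_zero_of_lt (by omega)]
          simp
      _ = 2 ^ (j.1 + 1) := by exact_mod_cast Nat.sum_range_choose (j.1 + 1)
      _ ≤ 2 ^ k := pow_le_pow_right₀ (by norm_num) hj
  have h4 : (2:ℝ) ^ (u * (j.1 + 1)) ≤ 2 ^ (k * u) :=
    pow_le_pow_right₀ (by norm_num) (by rw [mul_comm k u]; exact Nat.mul_le_mul_left u hj)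
  calc κ⁻¹ * 2 ^ (u * (j.1 + 1)) *
        |∑ i : Fin n, ((j.1 + 1).choose i.1 : ℝ) * (-τ) ^ (j.1 + 1 - i.1) * ζ i|
      ≤ κ⁻¹ * 2 ^ (k * u) * 2 ^ k := by gcongr
    _ = 2 ^ k * 2 ^ (k * u) / κ := by
        rw [div_eq_mul_inv]
        ring

end

end Pool.Agent.Helper19.RP
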