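import Mathlib

/-! RP module CStage: iteration inside one stage -/

set_option autoImplicit false

open MeasureTheory Filter Topology Finset

namespace Pool.Agent.Helper19.RP

noncomputable section

/-- one stage (fixed degree `k`), abstract form: a sequence `S` with one step inequalities -/
theorem stage_abs (S : ℕ → ℝ) (C e : ℝ) (s0 u v : ℕ) (hC : 1 ≤ C) (hs0 : 1 ≤ s0) (huv : u ≤ v)
    (hS : ∀ w, 0 ≤ S w)
    (h : ∀ w s : ℕ, u ≤ w → w + s ≤ v → s ≤ s0 → S w ≤ C * (2 : ℝ) ^ (e * s) * S (w + s)) :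
    S u ≤ C ^ ((v - u) / s0 + 1) * (2 : ℝ) ^ (e * ((v : ℝ) - u)) * S v := by
  have key : ∀ n : ℕ, ∀ w : ℕ, u ≤ w → w ≤ v → v - w = n →
      S w ≤ C ^ ((v - w) / s0 + 1) * (2 : ℝ) ^ (e * ((v : ℝ) - w)) * S v := by
    intro n
    induction n using Nat.strong_induction_on with
    | _ n ih =>
      intro w huw hwv hn
      by_cases hle : v - w ≤ s0
      · have h1 := h w (v - w) huw (by omega) hle
        have h2 : w + (v - w) = v := by omega
        rw [h2] at h1
        have h3 : ((v - w : ℕ) : ℝ) = (v : ℝ) - w := by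
          rw [Nat.cast_sub hwv]
        rw [h3] at h1
        refine h1.trans ?_
        have h4 : C ≤ C ^ ((v - w) / s0 + 1) := by
          calc C = C ^ 1 := (pow_one C).symm
            _ ≤ C ^ ((v - w) / s0 + 1) := pow_le_pow_right₀ hC (Nat.le_add_left 1 _)
        have h5 : (0 : ℝ) ≤ (2 : ℝ) ^ (e * ((v : ℝ) - w)) := by positivity
        exact mul_le_mul_of_nonneg_right (mul_le_mul_of_nonneg_right h4 h5) (hS v)
      · push Not at hle
        have h1 := h w s0 huw (by omega) le_rfl
        have h2 := ih (v - (w + s0)) (by omega) (w + s0) (by omega) (by omega) rfl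
        have h3 : (v - w) / s0 = (v - (w + s0)) / s0 + 1 := by
          have : v - w = (v - (w + s0)) + s0 := by omega
          rw [this, Nat.add_div_right _ (by omega)]
        have h4 : (0 : ℝ) ≤ C * (2 : ℝ) ^ (e * s0) := by positivity
        calc S w ≤ C * (2 : ℝ) ^ (e * s0) * S (w + s0) := h1
          _ ≤ C * (2 : ℝ) ^ (e * s0) * (C ^ ((v - (w + s0)) / s0 + 1) *
              (2 : ℝ) ^ (e * ((v : ℝ) - ((w + s0 : ℕ) : ℝ))) * S v) :=
            mul_le_mul_of_nonneg_left h2 h4
          _ = C ^ ((v - w) / s0 + 1) * (2 : ℝ) ^ (e * ((v : ℝ) - w)) * S v := by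
            rw [h3, pow_succ C ((v - (w + s0)) / s0 + 1)]
            have h5 : e * ((v : ℝ) - w) = e * s0 + e * ((v : ℝ) - ((w + s0 : ℕ) : ℝ)) := by
              push_cast
              ring
            rw [h5, Real.rpow_add (by norm_num : (0 : ℝ) < 2)]
            ring
  exact key (v - u) u le_rfl huv rfl

end

end Pool.Agent.Helper19.RP
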