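import Pool.Agent.Helper19.RP.CSg
import Pool.Agent.Helper19.RP.CShear
import Pool.Agent.Helper19.RP.CGeo

/-! RP module CStep: one decoupling step on the cone -/

set_option autoImplicit false

open MeasureTheory Filter Topology Finset

namespace Pool.Agent.Helper19.RP

noncomputable section

/-- the frequencies of the functions `g i` lie on the half line through `(1, i/M, ..., )` in a
thin band around `κ` -/
def Cone (n M : ℕ) (κ ν : ℝ) (g : ℕ → E n → ℂ) : Prop :=
  ∀ i < M, TS {ζ : E n | ∃ x : ℝ, |x - κ| ≤ ν * κ ∧ ζ = x • gam n ((i : ℝ) / M)} (g i)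

theorem CStep_sum (N S : ℕ) (F : ℕ → ℝ) :
    ∑ a ∈ range N, ∑ j ∈ range S, F (a * S + j) = ∑ b ∈ range (N * S), F b := by
  induction N with
  | zero => simp
  | succ N ih =>
    rw [Finset.sum_range_succ, ih, Nat.succ_mul, Finset.sum_range_add]

theorem cone_step (k n p : ℕ) (hk : 1 ≤ k) (hkn : k ≤ n - 1) :
    ∃ c : ℝ, 0 < c ∧ ∀ (M : ℕ) (κ ν D : ℝ) (u s : ℕ), 1 ≤ M → 0 < κ → 0 ≤ ν → ν ≤ c * (1 / 2) ^ (k * s) →
      2 ^ (k * (u + s)) ≤ c * κ → DecP k 2 p (2 ^ s) D → ∀ g : ℕ → E n → ℂ, Cone n M κ ν g →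
      Sg n p M u g ≤ D * Sg n p M (u + s) g := by
  obtain ⟨c0, hc0, hbox⟩ := exists_mem_box k
  refine ⟨c0 / 2 ^ k, by positivity, ?_⟩
  intro M κ ν D u s hM hκ hν hνc hks hD g hg
  haveI := isFiniteMeasure_mu0 n
  have hn : 1 ≤ n := by omega
  set σ : ℝ := (1 / 2) ^ s with hσ
  have hσ0 : 0 < σ := by positivity
  have hσ1 : σ ≤ 1 := pow_le_one₀ (by norm_num) (by norm_num)
  have hσk : σ ^ k = (1 / 2) ^ (k * s) := by rw [hσ, ← pow_mul, mul_comm]
  have h2k : (1 : ℝ) ≤ 2 ^ k := one_le_pow₀ (by norm_num)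
  have hνc0 : ν ≤ c0 * σ ^ k := by
    rw [hσk]
    refine hνc.trans ?_
    apply mul_le_mul_of_nonneg_right _ (by positivity)
    exact div_le_self hc0.le h2k
  have hjσ : ∀ j : ℕ, j < 2 ^ s → (j : ℝ) * σ ≤ 1 := by
    intro j hj
    rw [hσ, one_div, inv_pow, ← div_eq_mul_inv, div_le_one (by positivity)]
    exact_mod_cast hj.le
  -- one arc
  have key : ∀ a ∈ range (2 ^ u), ∫ x, ‖∑ i ∈ arc M u a, g i x‖ ^ p ∂(mu0 n) ≤
      D * ∑ j ∈ range (2 ^ s), ∫ x, ‖∑ i ∈ arc M (u + s) (a * 2 ^ s + j), g i x‖ ^ p ∂(mu0 n) := by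
    intro a ha
    rw [mem_range] at ha
    have hτ0 : (0 : ℝ) ≤ (a : ℝ) / 2 ^ u := by positivity
    have hτ1 : (a : ℝ) / 2 ^ u ≤ 1 := by
      rw [div_le_one (by positivity)]; exact_mod_cast ha.le
    have hdec := hD n (shear n k κ ((a : ℝ) / 2 ^ u) u) (mu0 n) inferInstance 0 σ hσ0 ?_
      (fun j x => ∑ i ∈ arc M (u + s) (a * 2 ^ s + j), g i x) ?_
    · refine le_trans (le_of_eq ?_) hdec
      congr 1
      funext x
      rw [sum_arc_split M u s a hM (fun i => g i x)]
    · -- vanishing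
      rintro ζ ⟨j, hj, hnot⟩
      by_contra hne
      have hz : ∀ i, |ζ i| ≤ 1 := by
        intro i
        by_contra h
        push Not at h
        exact hne (integral_ch_mu0 n ζ ⟨i, h.le⟩)
      apply hnot
      have hb := hbox (0 + (j : ℝ) * σ) σ (0 + (j : ℝ) * σ) (by positivity)
        (by rw [zero_add]; exact hjσ j hj) hσ0 hσ1 le_rfl (by linarith)
        (shear n k κ ((a : ℝ) / 2 ^ u) u ζ) ?_
      · exact hb.2
      · intro i
        refine (shear_bound n k κ _ hκ hτ0 hτ1 u ζ hz i).trans ?_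
        rw [hσk, div_le_iff₀ hκ]
        have h1 : (2 : ℝ) ^ (k * (u + s)) = 2 ^ (k * u) * 2 ^ (k * s) := by
          rw [← pow_add, mul_add]
        rw [h1] at hks
        have h2 : (0 : ℝ) < 2 ^ (k * s) := by positivity
        have h3 : (2 : ℝ) ^ k * (2 ^ (k * u) * 2 ^ (k * s)) ≤ c0 * κ := by
          calc (2 : ℝ) ^ k * (2 ^ (k * u) * 2 ^ (k * s)) ≤ 2 ^ k * (c0 / 2 ^ k * κ) :=
                mul_le_mul_of_nonneg_left hks (by positivity)
            _ = c0 * κ := by field_simp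
        rw [one_div, inv_pow]
        rw [mul_right_comm, ← div_eq_mul_inv, le_div_iff₀ h2]
        linarith
    · -- frequencies
      intro j hj
      apply TS.sum
      intro i hi
      have hiM : i < M := (mem_arc.1 hi).1
      refine (hg i hiM).mono ?_
      rintro ζ ⟨x, hx, rfl⟩
      rw [Set.mem_preimage]
      obtain ⟨hb1, hb2⟩ := arc_bounds hM hi
      set t : ℝ := (i : ℝ) / M with ht
      set θ : ℝ := 2 ^ u * (t - (a : ℝ) / 2 ^ u) with hθ
      have h2u : (0 : ℝ) < 2 ^ u := by positivity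
      have h2s : (0 : ℝ) < 2 ^ s := by positivity
      have hθ1 : (j : ℝ) * σ ≤ θ := by
        have : ((a * 2 ^ s + j : ℕ) : ℝ) / 2 ^ (u + s) = (a : ℝ) / 2 ^ u + (j : ℝ) * σ / 2 ^ u := by
          rw [hσ, one_div, inv_pow, pow_add]; push_cast; field_simp
        rw [this] at hb1
        rw [hθ]
        have h3 : (j : ℝ) * σ / 2 ^ u ≤ t - (a : ℝ) / 2 ^ u := by linarith
        rw [div_le_iff₀ h2u] at h3
        linarith
      have hθ2 : θ ≤ (j : ℝ) * σ + σ := by
        have : (((a * 2 ^ s + j : ℕ) : ℝ) + 1) / 2 ^ (u + s) =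
            (a : ℝ) / 2 ^ u + ((j : ℝ) * σ + σ) / 2 ^ u := by
          rw [hσ, one_div, inv_pow, pow_add]; push_cast; field_simp; ring
        rw [this] at hb2
        rw [hθ]
        have h3 : t - (a : ℝ) / 2 ^ u ≤ ((j : ℝ) * σ + σ) / 2 ^ u := by linarith
        rw [le_div_iff₀ h2u] at h3
        linarith
      have hθ0 : 0 ≤ θ := le_trans (by positivity) hθ1
      have hθle1 : θ ≤ 1 := by
        refine hθ2.trans ?_
        have : ((j : ℝ) + 1) * σ ≤ 1 := by
          rw [hσ, one_div, inv_pow, ← div_eq_mul_inv, div_le_one (by positivity)]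
          exact_mod_cast hj
        linarith
      have hpr : shear n k κ ((a : ℝ) / 2 ^ u) u (x • gam n t) =
          mom k θ + (fun i' : Fin k => (x / κ - 1) * θ ^ (i'.1 + 1)) := by
        funext i'
        rw [shear_gam n k hkn hn κ _ x t u i', Pi.add_apply, mom, ← hθ]
        ring
      rw [hpr]
      have hb := hbox (0 + (j : ℝ) * σ) σ θ (by positivity)
        (by rw [zero_add]; exact hjσ j hj) hσ0 hσ1 (by linarith) (by linarith)
        (fun i' : Fin k => (x / κ - 1) * θ ^ (i'.1 + 1)) ?_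
      · exact hb.1
      · intro i'
        rw [abs_mul]
        have h4 : |x / κ - 1| ≤ ν := by
          rw [show x / κ - 1 = (x - κ) / κ by field_simp, abs_div, abs_of_pos hκ,
            div_le_iff₀ hκ]
          exact hx
        have h5 : |θ ^ (i'.1 + 1)| ≤ 1 := by
          rw [abs_of_nonneg (by positivity)]
          exact pow_le_one₀ hθ0 hθle1
        calc |x / κ - 1| * |θ ^ (i'.1 + 1)| ≤ ν * 1 :=
              mul_le_mul h4 h5 (abs_nonneg _) hν
          _ = ν := mul_one _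
          _ ≤ c0 * σ ^ k := hνc0
  -- sum over the arcs
  unfold Sg
  refine (Finset.sum_le_sum key).trans (le_of_eq ?_)
  rw [← Finset.mul_sum]
  congr 1
  rw [CStep_sum (2 ^ u) (2 ^ s)
    (fun b => ∫ x, ‖∑ i ∈ arc M (u + s) b, g i x‖ ^ p ∂(mu0 n)), ← pow_add]

end

end Pool.Agent.Helper19.RP
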