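import Mathlib

/-!
MP_795d31_lc: definitions and interfaces between the chapters MC, CONE, FST, COMP

MC: lossy `ℓ^p` decoupling for the moment curve (`MC k`, all `k ≥ 1`).
CONE: `MC 1, ..., MC (n-1)` imply `PropA n`.
FST: `PropA n` implies `Pool.Agent.Helper24.DS.KEYG n B`.
COMP: `KEYG n B` for all `n, B` implies the final theorem.
-/

set_option autoImplicit false

open MeasureTheory Filter Topology Finset

namespace Pool.Agent.Helper19.RP

noncomputable section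

abbrev E (k : ℕ) : Type := Fin k → ℝ

/-- the character `exp (2 π i x)` -/
def ch (x : ℝ) : ℂ := Complex.exp (2 * Real.pi * x * Complex.I)

/-- scalar product -/
def dt {k : ℕ} (x y : E k) : ℝ := ∑ i, x i * y i

/-- the moment curve `(t, t^2, ..., t^k)` -/
def mom (k : ℕ) (t : ℝ) : E k := fun i => t ^ (i.1 + 1)

/-- frame vector number `i`: derivative of order `i+1` of the moment curve, divided by `(i+1)!` -/
def fr (k : ℕ) (t : ℝ) (i : Fin k) : E k :=
  fun j => ((j.1 + 1).choose (i.1 + 1) : ℝ) * t ^ (j.1 - i.1)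

/-- centered anisotropic box of size `s` in the frame at `t` -/
def dbox (k : ℕ) (A t s : ℝ) : Set (E k) :=
  {ξ | ∃ y : E k, (∀ i, |y i| ≤ A * s ^ (i.1 + 1)) ∧ ξ = ∑ i, y i • fr k t i}

/-- anisotropic box of size `s` at the point `mom k t` -/
def box (k : ℕ) (A t s : ℝ) : Set (E k) :=
  {ξ | ∃ y : E k, (∀ i, |y i| ≤ A * s ^ (i.1 + 1)) ∧ ξ = mom k t + ∑ i, y i • fr k t i}

/-- `f` is a finite trigonometric sum with frequencies in `S` -/
def TS {n : ℕ} (S : Set (E n)) (f : E n → ℂ) : Prop :=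
  ∃ (s : Finset (E n)) (c : E n → ℂ), (↑s ⊆ S) ∧ ∀ x, f x = ∑ ζ ∈ s, c ζ * ch (dt x ζ)

/-- `ℓ^p` decoupling with constant `D` for `N` consecutive arcs of equal length of the moment
curve in `E k`, for functions on `E n` whose frequencies are seen through the additive map `pr`,
with respect to finite measures whose Fourier transform vanishes outside the intersection of the
preimages of the boxes -/
def DecP (k : ℕ) (A : ℝ) (p N : ℕ) (D : ℝ) : Prop :=
  ∀ (n : ℕ) (pr : E n →+ E k) (μ : Measure (E n)) (_ : IsFiniteMeasure μ) (t s : ℝ), 0 < s →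
    (∀ ζ : E n, (∃ j < N, pr ζ ∉ dbox k A (t + (j : ℝ) * s) s) → ∫ x, ch (dt x ζ) ∂μ = 0) →
    ∀ f : ℕ → E n → ℂ, (∀ j < N, TS (pr ⁻¹' (box k A (t + (j : ℝ) * s) s)) (f j)) →
      ∫ x, ‖∑ j ∈ range N, f j x‖ ^ p ∂μ ≤ D * ∑ j ∈ range N, ∫ x, ‖f j x‖ ^ p ∂μ

/-- lossy decoupling for the moment curve: the loss tends to `0` as `p` tends to infinity -/
def MC (k : ℕ) : Prop :=
  ∀ A : ℝ, 1 ≤ A → ∀ lam : ℝ, 0 < lam → ∃ p0 : ℕ, ∀ p ≥ p0, Even p → ∃ C : ℝ, 0 < C ∧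
    ∀ M : ℕ, DecP k A p (2 ^ M)
      (C * (2 : ℝ) ^ (((p : ℝ) - 1 - (k : ℝ) * (k + 1) / 2 + lam) * M))

/-- density of the reference measure; its Fourier transform is supported in `[-1,1]` -/
def bet (x : ℝ) : ℝ := Real.sinc (Real.pi * x) ^ 2

/-- reference measure on coefficient space -/
def mu0 (n : ℕ) : Measure (E n) :=
  volume.withDensity (fun a => ENNReal.ofReal (∏ j, bet (a j)))

/-- the polynomial with coefficient vector `a` -/
def pol {n : ℕ} (a : E n) (t : ℝ) : ℝ := ∑ j, a j * t ^ j.1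

/-- averages of high frequency functions along polynomial graphs (grid of `M ≥ R` points) -/
def PropA (n : ℕ) : Prop :=
  ∀ lam : ℝ, 0 < lam → ∃ p0 : ℕ, ∀ p ≥ p0, Even p → ∃ C : ℝ, 0 < C ∧
    ∀ R M : ℕ, 1 ≤ R → R ≤ M → ∀ c : ℕ → ℕ → ℂ,
      (∀ i < M, ∀ y : ℝ, ‖∑ m ∈ Icc R (4 * R), c i m * ch (m * y)‖ ≤ 1) →
      ∫ a, ‖(M : ℂ)⁻¹ * ∑ i ∈ range M, ∑ m ∈ Icc R (4 * R),
          c i m * ch (m * pol a ((i : ℝ) / M))‖ ^ p ∂(mu0 n) ≤
        C * (R : ℝ) ^ (-((n : ℝ) - 1) + lam) *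
          ((M : ℝ)⁻¹ * ∑ i ∈ range M, ∑ m ∈ Icc R (4 * R), ‖c i m‖ ^ 2)

end

end Pool.Agent.Helper19.RP
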