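import Pool.Agent.Helper24.DS.Defs

/-! RP module UEx: existence of a universal prefix free machine -/

set_option autoImplicit false

namespace Pool.Agent.Helper24.DS

open Nat.Partrec (Code)

/-- stage `s` of the search for a halting program comparable with the given one; the argument is
(code, program, condition) -/
def UExTst (x : ℕ × List Bool × List Bool) (s : ℕ) : Option (Option (List Bool)) :=
  (Encodable.decode (α := ℕ × List Bool) s).bind fun tq =>
    if x.2.1.take tq.2.length = tq.2.take x.2.1.length then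
      (Code.evaln tq.1 (Denumerable.ofNat Code x.1) (Encodable.encode (tq.2, x.2.2))).map fun y =>
        if tq.2 = x.2.1 then Encodable.decode (α := List Bool) y else none
    else none

/-- the prefix free version of the machine with code number `x.1` -/
def UExW (x : ℕ × List Bool × List Bool) : Part (List Bool) :=
  (Nat.rfindOpt (UExTst x)).bind fun r => (r : Part (List Bool))

/-- split a program into code number and program -/
def UExParse (p : List Bool) : Option (ℕ × List Bool) :=
  if p.findIdx id < p.length then some (p.findIdx id, p.drop (p.findIdx id + 1)) else none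

/-- the universal machine -/
def UExU : Mach := fun p w =>
  (UExParse p : Part (ℕ × List Bool)).bind fun x => UExW (x.1, x.2, w)

theorem UEx_tst_primrec : Primrec₂ UExTst := by
  unfold UExTst
  have h1 : Primrec fun y : (ℕ × List Bool × List Bool) × ℕ =>
      Encodable.decode (α := ℕ × List Bool) y.2 := Primrec.decode.comp Primrec.snd
  refine Primrec.option_bind h1 ?_
  have hx : Primrec fun z : ((ℕ × List Bool × List Bool) × ℕ) × (ℕ × List Bool) => z.1.1 :=
    Primrec.fst.comp Primrec.fst
  have he : Primrec fun z : ((ℕ × List Bool × List Bool) × ℕ) × (ℕ × List Bool) => z.1.1.1 :=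
    Primrec.fst.comp hx
  have hp : Primrec fun z : ((ℕ × List Bool × List Bool) × ℕ) × (ℕ × List Bool) => z.1.1.2.1 :=
    Primrec.fst.comp (Primrec.snd.comp hx)
  have hw : Primrec fun z : ((ℕ × List Bool × List Bool) × ℕ) × (ℕ × List Bool) => z.1.1.2.2 :=
    Primrec.snd.comp (Primrec.snd.comp hx)
  have ht : Primrec fun z : ((ℕ × List Bool × List Bool) × ℕ) × (ℕ × List Bool) => z.2.1 :=
    Primrec.fst.comp Primrec.snd
  have hq : Primrec fun z : ((ℕ × List Bool × List Bool) × ℕ) × (ℕ × List Bool) => z.2.2 :=
    Primrec.snd.comp Primrec.snd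
  refine Primrec.ite ?_ ?_ (Primrec.const none)
  · exact Primrec.eq.comp (Primrec.list_take.comp (Primrec.list_length.comp hq) hp)
      (Primrec.list_take.comp (Primrec.list_length.comp hp) hq)
  · refine Primrec.option_map ?_ ?_
    · exact Code.primrec_evaln.comp (Primrec.pair (Primrec.pair ht
        ((Primrec.ofNat Code).comp he)) (Primrec.encode.comp (Primrec.pair hq hw)))
    · refine Primrec.ite ?_ ?_ (Primrec.const none)
      · exact Primrec.eq.comp (hq.comp Primrec.fst) (hp.comp Primrec.fst)
      · exact Primrec.decode.comp Primrec.snd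

theorem UEx_W_partrec : Partrec UExW := by
  unfold UExW
  exact (Partrec.rfindOpt UEx_tst_primrec.to_comp).bind (Computable.ofOption Computable.snd)

theorem UEx_parse_primrec : Primrec UExParse := by
  unfold UExParse
  have h1 : Primrec fun p : List Bool => p.findIdx id :=
    Primrec.list_findIdx Primrec.id (Primrec.snd).to₂
  refine Primrec.ite (Primrec.nat_lt.comp h1 Primrec.list_length) ?_ (Primrec.const none)
  exact Primrec.option_some.comp (Primrec.pair h1
    (Primrec.list_drop.comp (Primrec.succ.comp h1) Primrec.id))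

theorem UEx_U_partrec : Partrec₂ UExU := by
  unfold UExU
  have h1 : Computable fun x : List Bool × List Bool => UExParse x.1 :=
    UEx_parse_primrec.to_comp.comp Computable.fst
  refine (Computable.ofOption h1).bind ?_
  have h2 : Computable fun z : (List Bool × List Bool) × (ℕ × List Bool) =>
      ((z.2.1, z.2.2, z.1.2) : ℕ × List Bool × List Bool) :=
    Computable.pair (Computable.fst.comp Computable.snd) (Computable.pair
      (Computable.snd.comp Computable.snd) (Computable.snd.comp Computable.fst))
  exact UEx_W_partrec.comp h2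

theorem UEx_mem_W {x : ℕ × List Bool × List Bool} {v : List Bool} (h : v ∈ UExW x) :
    ∃ s, UExTst x s = some (some v) ∧ ∀ s' < s, UExTst x s' = none := by
  unfold UExW Nat.rfindOpt at h
  rw [Part.mem_bind_iff] at h
  obtain ⟨r, hr, hv⟩ := h
  rw [Part.mem_bind_iff] at hr
  obtain ⟨s, hs, hr⟩ := hr
  rw [Part.mem_coe] at hr hv
  have hs := Nat.mem_rfind.1 hs
  refine ⟨s, ?_, fun s' hs' => ?_⟩
  · have h1 : UExTst x s = some r := hr
    have h2 : r = some v := hv
    rw [h1, h2]
  · have := hs.2 hs'
    simpa using this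

theorem UEx_tst_some {x : ℕ × List Bool × List Bool} {s : ℕ} {v : List Bool}
    (h : UExTst x s = some (some v)) : ∃ t y, Encodable.decode (α := ℕ × List Bool) s =
      some (t, x.2.1) ∧ Code.evaln t (Denumerable.ofNat Code x.1)
        (Encodable.encode (x.2.1, x.2.2)) = some y ∧ Encodable.decode (α := List Bool) y = some v := by
  unfold UExTst at h
  rw [Option.bind_eq_some_iff] at h
  obtain ⟨⟨t, q⟩, h1, h2⟩ := h
  split_ifs at h2 with h3 h5
  · rw [Option.map_eq_some_iff] at h2
    obtain ⟨y, hy, h4⟩ := h2
    simp only at h5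
    subst h5
    exact ⟨t, y, h1, hy, h4⟩
  · rw [Option.map_eq_some_iff] at h2
    obtain ⟨y, hy, h4⟩ := h2
    exact absurd h4 (by simp)

theorem UEx_cmp {p q : List Bool} (h : p <+: q) :
    p.take q.length = q.take p.length := by
  obtain ⟨t, rfl⟩ := h
  simp

theorem UEx_cmp' {p q : List Bool} (h : p.take q.length = q.take p.length) :
    p <+: q ∨ q <+: p := by
  rcases le_total p.length q.length with h1 | h1
  · left
    rw [List.take_of_length_le h1] at h
    rw [h]
    exact List.take_prefix _ _
  · right
    rw [List.take_of_length_le h1] at h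
    rw [← h]
    exact List.take_prefix _ _

theorem UEx_tst_ne {x : ℕ × List Bool × List Bool} {s t y : ℕ} {q : List Bool}
    (h1 : Encodable.decode (α := ℕ × List Bool) s = some (t, q))
    (h2 : Code.evaln t (Denumerable.ofNat Code x.1) (Encodable.encode (q, x.2.2)) = some y)
    (h3 : x.2.1.take q.length = q.take x.2.1.length) : UExTst x s ≠ none := by
  unfold UExTst
  rw [h1, Option.bind_some]
  simp only
  rw [if_pos h3, h2]
  simp

theorem UEx_W_free {e : ℕ} {p p' w v v' : List Bool} (h : v ∈ UExW (e, p, w))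
    (h' : v' ∈ UExW (e, p', w)) (hp : p <+: p') : p = p' := by
  obtain ⟨s, hs, hm⟩ := UEx_mem_W h
  obtain ⟨s', hs', hm'⟩ := UEx_mem_W h'
  obtain ⟨t, y, h1, h2, h3⟩ := UEx_tst_some hs
  obtain ⟨t', y', h1', h2', h3'⟩ := UEx_tst_some hs'
  have e1 : s' ≤ s := by
    by_contra hc
    exact UEx_tst_ne (x := (e, p', w)) h1 h2 (UEx_cmp hp).symm (hm' s (by omega))
  have e2 : s ≤ s' := by
    by_contra hc
    exact UEx_tst_ne (x := (e, p, w)) h1' h2' (UEx_cmp hp) (hm s' (by omega))
  have e3 : s = s' := by omega
  subst e3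
  rw [h1] at h1'
  simp only [Option.some.injEq, Prod.mk.injEq] at h1'
  exact h1'.2

theorem UEx_code {V : Mach} (hV : Partrec₂ V) : ∃ c : Code, ∀ p w : List Bool, ∀ y : ℕ,
    y ∈ Code.eval c (Encodable.encode (p, w)) ↔ ∃ v, v ∈ V p w ∧ y = Encodable.encode v := by
  obtain ⟨c, hc⟩ := Code.exists_code.1 hV
  refine ⟨c, fun p w y => ?_⟩
  rw [hc]
  simp only [Encodable.encodek, Part.coe_some, Part.bind_some, Part.mem_map_iff]
  constructor
  · rintro ⟨v, hv, rfl⟩
    exact ⟨v, hv, rfl⟩
  · rintro ⟨v, hv, rfl⟩
    exact ⟨v, hv, rfl⟩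

theorem UEx_sim {V : Mach} (hV : Partrec₂ V) (hf : IsPrefixFree V) : ∃ e : ℕ,
    ∀ p w v : List Bool, v ∈ V p w → v ∈ UExW (e, p, w) := by
  obtain ⟨c, hc⟩ := UEx_code hV
  refine ⟨Encodable.encode c, fun p w v hv => ?_⟩
  have h1 : Encodable.encode v ∈ Code.eval c (Encodable.encode (p, w)) := (hc p w _).2 ⟨v, hv, rfl⟩
  obtain ⟨t, ht⟩ := Code.evaln_complete.1 h1
  have h2 : Denumerable.ofNat Code (Encodable.encode c) = c := Denumerable.ofNat_encode c
  have h3 : UExTst (Encodable.encode c, p, w) (Encodable.encode (t, p)) = some (some v) := by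
    unfold UExTst
    simp only [Encodable.encodek, Option.bind_some, if_true, h2]
    have : Code.evaln t c (Encodable.encode (p, w)) = some (Encodable.encode v) := ht
    rw [this]
    simp
  have h4 : (Nat.rfindOpt (UExTst (Encodable.encode c, p, w))).Dom :=
    Nat.rfindOpt_dom.2 ⟨_, _, h3⟩
  obtain ⟨r, hr⟩ := Part.dom_iff_mem.1 h4
  obtain ⟨s, hs⟩ := Nat.rfindOpt_spec hr
  have hs : UExTst (Encodable.encode c, p, w) s = some r := hs
  have h5 : r = some v := by
    unfold UExTst at hs
    rw [Option.bind_eq_some_iff] at hs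
    obtain ⟨⟨t', q⟩, g1, g2⟩ := hs
    have key : ∀ y, Code.evaln t' c (Encodable.encode (q, w)) = some y →
        p.take q.length = q.take p.length → q = p ∧ y = Encodable.encode v := by
      intro y hy g3
      have g5 : y ∈ Code.eval c (Encodable.encode (q, w)) := Code.evaln_sound hy
      obtain ⟨v', hv', rfl⟩ := (hc q w y).1 g5
      have g6 : q = p := by
        rcases UEx_cmp' g3 with g | g
        · exact (hf w p q (Part.dom_iff_mem.2 ⟨_, hv⟩) (Part.dom_iff_mem.2 ⟨_, hv'⟩) g).symm
        · exact hf w q p (Part.dom_iff_mem.2 ⟨_, hv'⟩) (Part.dom_iff_mem.2 ⟨_, hv⟩) g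
      subst g6
      exact ⟨rfl, by rw [Part.mem_unique hv' hv]⟩
    simp only [h2] at g2
    split_ifs at g2 with g3 g4
    · rw [Option.map_eq_some_iff] at g2
      obtain ⟨y, hy, g5⟩ := g2
      obtain ⟨_, rfl⟩ := key y hy g3
      rw [← g5]
      simp
    · rw [Option.map_eq_some_iff] at g2
      obtain ⟨y, hy, g5⟩ := g2
      exact absurd (key y hy g3).1 g4
  rw [UExW, Part.mem_bind_iff]
  exact ⟨r, hr, by rw [h5]; simp⟩

theorem UEx_parse_app (e : ℕ) (p : List Bool) :
    UExParse (List.replicate e false ++ true :: p) = some (e, p) := by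
  have h1 : (List.replicate e false ++ true :: p).findIdx id = e := by
    induction e with
    | zero => simp [List.findIdx_cons]
    | succ e ih => simp [List.replicate_succ, List.findIdx_cons, ih]
  unfold UExParse
  rw [h1, if_pos (by simp)]
  congr 2
  rw [List.drop_append]
  simp

theorem exists_universal : ∃ U : Mach, IsUniversal U := by
  refine ⟨UExU, UEx_U_partrec, ?_, ?_⟩
  · intro w p q hp hq hpq
    obtain ⟨v, hv⟩ := Part.dom_iff_mem.1 hp
    obtain ⟨v', hv'⟩ := Part.dom_iff_mem.1 hq
    unfold UExU at hv hv'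
    rw [Part.mem_bind_iff] at hv hv'
    obtain ⟨x, hx, hv⟩ := hv
    obtain ⟨x', hx', hv'⟩ := hv'
    rw [Part.mem_coe] at hx hx'
    have hx : UExParse p = some x := hx
    have hx' : UExParse q = some x' := hx'
    unfold UExParse at hx hx'
    split_ifs at hx with h1
    split_ifs at hx' with h2
    obtain ⟨t, rfl⟩ := hpq
    have h3 : (p ++ t).findIdx id = p.findIdx id := by
      rw [List.findIdx_append, if_pos h1]
    rw [h3] at hx'
    have e1 : x = (p.findIdx id, p.drop (p.findIdx id + 1)) := (Option.some.inj hx).symm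
    have e2 : x' = (p.findIdx id, (p ++ t).drop (p.findIdx id + 1)) := (Option.some.inj hx').symm
    have h4 : (p ++ t).drop (p.findIdx id + 1) = p.drop (p.findIdx id + 1) ++ t := by
      rw [List.drop_append_of_le_length (by omega)]
    rw [h4] at e2
    subst e1 e2
    have h5 := UEx_W_free hv hv' (List.prefix_append _ _)
    have h6 : t = [] := by
      simpa using h5
    rw [h6]
    simp
  · intro V hV hf
    obtain ⟨e, he⟩ := UEx_sim hV hf
    refine ⟨e + 1, fun p w v hv => ⟨List.replicate e false ++ true :: p, by simp; omega, ?_⟩⟩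
    unfold UExU
    rw [UEx_parse_app]
    simpa using he p w v hv

end Pool.Agent.Helper24.DS
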